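import Pool.Agent.helper82.CH.SpecN
import Pool.Agent.helper83.CH.TSL

/-!
# Project CH (MP_2e0e07_nt), row EUL: Euler factors at the primes dividing `q`
-/

set_option autoImplicit false

open NumberField Complex Pool.Agent.UN

namespace Pool.Agent.CH

open Classical in
/-- the function `χ` with the multiples of `P` removed -/
noncomputable def EUL_r {F : Type} [Field F] [NumberField F] (χ : Ideal (𝓞 F) → ℂ) (P a : Ideal (𝓞 F)) : ℂ :=
  if P ∣ a then 0 else χ a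

theorem EUL_cm {F : Type} [Field F] [NumberField F] {χ : Ideal (𝓞 F) → ℂ} (hχ : CM χ) {P : Ideal (𝓞 F)} (hP : P.IsPrime)
    (hP0 : P ≠ ⊥) : CM (EUL_r χ P) := by
  have hp : Prime P := Ideal.prime_of_isPrime hP0 hP
  refine ⟨?_, ?_, ?_, ?_⟩
  · unfold EUL_r
    split_ifs
    · rfl
    · exact hχ.bot
  · unfold EUL_r
    rw [if_neg, hχ.one]
    intro h
    apply hp.not_unit
    rw [← Ideal.one_eq_top] at h
    exact isUnit_of_dvd_one h
  · intro a b
    unfold EUL_r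
    by_cases ha : P ∣ a
    · rw [if_pos ha, if_pos (Dvd.dvd.mul_right ha b), zero_mul]
    · by_cases hb : P ∣ b
      · rw [if_pos hb, if_pos (Dvd.dvd.mul_left hb a), mul_zero]
      · have hab : ¬ P ∣ a * b := fun h => (hp.dvd_or_dvd h).elim ha hb
        rw [if_neg ha, if_neg hb, if_neg hab, hχ.mul]
  · intro a
    unfold EUL_r
    split_ifs
    · rw [norm_zero]
      exact zero_le_one
    · exact hχ.bd a

theorem EUL_nm {F : Type} [Field F] [NumberField F] (a b : Ideal (𝓞 F)) : Nm (a * b) = Nm a * Nm b := by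
  unfold Nm
  rw [map_mul, Nat.cast_mul]

theorem EUL_nm0 {F : Type} [Field F] [NumberField F] (a : Ideal (𝓞 F)) : 0 ≤ Nm a := by
  unfold Nm
  exact Nat.cast_nonneg _

theorem EUL_step (hCSM : CSM_stmt) (hTSL : TSL_stmt) {F : Type} [Field F] [NumberField F] {χ : Ideal (𝓞 F) → ℂ} (hχ : CM χ)
    {P : Ideal (𝓞 F)} (hP : P.IsPrime) (hP0 : P ≠ ⊥) (s : ℂ) (hs : 1 < s.re) :
    LSeries (cc (EUL_r χ P)) s = (1 - χ P * (Nm P : ℂ) ^ (-s)) * LSeries (cc χ) s := by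
  classical
  rw [← hTSL F _ (EUL_cm hχ hP hP0) s hs, ← hTSL F χ hχ s hs]
  have hS := TSL_summable hCSM F χ hχ s hs
  have h1 : Summable (Set.indicator {a : Ideal (𝓞 F) | P ∣ a} (fun a : Ideal (𝓞 F) => χ a * (Nm a : ℂ) ^ (-s))) :=
    hS.indicator _
  have h2 : (fun a : Ideal (𝓞 F) => EUL_r χ P a * (Nm a : ℂ) ^ (-s)) =
      fun a => χ a * (Nm a : ℂ) ^ (-s) - Set.indicator {a : Ideal (𝓞 F) | P ∣ a} (fun a : Ideal (𝓞 F) => χ a * (Nm a : ℂ) ^ (-s)) a := by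
    funext a
    by_cases ha : P ∣ a
    · rw [Set.indicator_of_mem (show a ∈ {a : Ideal (𝓞 F) | P ∣ a} from ha)]
      unfold EUL_r
      rw [if_pos ha]
      ring
    · rw [Set.indicator_of_notMem (show a ∉ {a : Ideal (𝓞 F) | P ∣ a} from ha)]
      unfold EUL_r
      rw [if_neg ha]
      ring
  rw [h2, hS.tsum_sub h1]
  have hinj : Function.Injective (fun a : Ideal (𝓞 F) => P * a) := fun a b hab => mul_left_cancel₀ hP0 hab
  have hsup : Function.support (Set.indicator {a : Ideal (𝓞 F) | P ∣ a} (fun a : Ideal (𝓞 F) => χ a * (Nm a : ℂ) ^ (-s))) ⊆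
      Set.range (fun a : Ideal (𝓞 F) => P * a) := by
    intro a ha
    have h3 : a ∈ {a : Ideal (𝓞 F) | P ∣ a} := Set.mem_of_indicator_ne_zero ha
    obtain ⟨b, hb⟩ := (show P ∣ a from h3)
    exact ⟨b, hb.symm⟩
  rw [← hinj.tsum_eq hsup]
  have h4 : (fun a : Ideal (𝓞 F) => Set.indicator {a : Ideal (𝓞 F) | P ∣ a} (fun a : Ideal (𝓞 F) => χ a * (Nm a : ℂ) ^ (-s)) (P * a)) =
      fun a => (χ P * (Nm P : ℂ) ^ (-s)) * (χ a * (Nm a : ℂ) ^ (-s)) := by
    funext a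
    rw [Set.indicator_of_mem (show P * a ∈ {a : Ideal (𝓞 F) | P ∣ a} from Dvd.intro a rfl)]
    show χ (P * a) * (Nm (P * a) : ℂ) ^ (-s) = _
    rw [hχ.mul, EUL_nm, Complex.ofReal_mul, Complex.mul_cpow_ofReal_nonneg (EUL_nm0 P) (EUL_nm0 a)]
    ring
  rw [h4, tsum_mul_left]
  ring

theorem EUL_two {F : Type} [Field F] [NumberField F] {P : Ideal (𝓞 F)} (hP : P.IsPrime) (hP0 : P ≠ ⊥) : 2 ≤ Nm P := by
  unfold Nm
  have h0 : Ideal.absNorm P ≠ 0 := fun h => hP0 (Ideal.absNorm_eq_zero_iff.1 h)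
  have h1 : Ideal.absNorm P ≠ 1 := fun h => hP.ne_top (Ideal.absNorm_eq_one_iff.1 h)
  have h2 : 2 ≤ Ideal.absNorm P := by omega
  exact_mod_cast h2

theorem EUL_fac {F : Type} [Field F] [NumberField F] {P : Ideal (𝓞 F)} (hP : P.IsPrime) (hP0 : P ≠ ⊥) (c : ℂ) (hc : ‖c‖ ≤ 1) (s : ℂ) :
    ‖1 - c * (Nm P : ℂ) ^ (-s)‖ ≤ (Nm P) ^ (1 + ‖s‖) := by
  have h2 := EUL_two hP hP0
  have hpos : 0 < Nm P := by linarith
  have h1 : ‖(Nm P : ℂ) ^ (-s)‖ ≤ (Nm P) ^ ‖s‖ := by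
    rw [Complex.norm_cpow_eq_rpow_re_of_pos hpos]
    apply Real.rpow_le_rpow_of_exponent_le (by linarith)
    rw [← norm_neg s]
    exact Complex.re_le_norm (-s)
  have h3 : (1 : ℝ) ≤ (Nm P) ^ ‖s‖ := Real.one_le_rpow (by linarith) (norm_nonneg s)
  have h4 : ‖1 - c * (Nm P : ℂ) ^ (-s)‖ ≤ 1 + ‖c‖ * ‖(Nm P : ℂ) ^ (-s)‖ := by
    refine (norm_sub_le _ _).trans ?_
    rw [norm_one, norm_mul]
  have h5 : ‖c‖ * ‖(Nm P : ℂ) ^ (-s)‖ ≤ 1 * (Nm P) ^ ‖s‖ := mul_le_mul hc h1 (norm_nonneg _) zero_le_one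
  rw [Real.rpow_add hpos, Real.rpow_one]
  nlinarith

open Classical in
theorem EUL_ind (hCSM : CSM_stmt) (hTSL : TSL_stmt) {F : Type} [Field F] [NumberField F] {χ : Ideal (𝓞 F) → ℂ} (hχ : CM χ)
    (S : Finset (Ideal (𝓞 F))) : (∀ P ∈ S, P.IsPrime ∧ P ≠ ⊥) → ∃ g : Ideal (𝓞 F) → ℂ, CM g ∧
    (∀ a, g a = if ∃ P ∈ S, P ∣ a then 0 else χ a) ∧ ∃ R : ℂ → ℂ, Differentiable ℂ R ∧
    (∀ s : ℂ, 1 < s.re → LSeries (cc g) s = R s * LSeries (cc χ) s) ∧ ∀ s : ℂ, ‖R s‖ ≤ (∏ P ∈ S, Nm P) ^ (1 + ‖s‖) := by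
  refine Finset.induction_on S ?_ ?_
  · intro _
    refine ⟨χ, hχ, ?_, fun _ => 1, differentiable_const 1, ?_, ?_⟩
    · intro a
      rw [if_neg]
      rintro ⟨P, hP, _⟩
      exact Finset.notMem_empty P hP
    · intro s _
      rw [one_mul]
    · intro s
      rw [Finset.prod_empty, norm_one, Real.one_rpow]
  · intro P T hPT ih hall
    obtain ⟨g, hg, hga, R, hR, hRs, hRb⟩ := ih fun Q hQ => hall Q (Finset.mem_insert_of_mem hQ)
    obtain ⟨hP, hP0⟩ := hall P (Finset.mem_insert_self P T)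
    have h2 := EUL_two hP hP0
    refine ⟨EUL_r g P, EUL_cm hg hP hP0, ?_, fun s => (1 - g P * (Nm P : ℂ) ^ (-s)) * R s, ?_, ?_, ?_⟩
    · intro a
      unfold EUL_r
      rw [hga a]
      by_cases h1 : P ∣ a
      · rw [if_pos h1, if_pos ⟨P, Finset.mem_insert_self P T, h1⟩]
      · rw [if_neg h1]
        by_cases h3 : ∃ Q ∈ T, Q ∣ a
        · obtain ⟨Q, hQ, hQa⟩ := h3
          rw [if_pos ⟨Q, hQ, hQa⟩, if_pos ⟨Q, Finset.mem_insert_of_mem hQ, hQa⟩]
        · rw [if_neg h3, if_neg]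
          rintro ⟨Q, hQ, hQa⟩
          rcases Finset.mem_insert.1 hQ with h4 | h4
          · exact h1 (h4 ▸ hQa)
          · exact h3 ⟨Q, h4, hQa⟩
    · have h5 : (Nm P : ℂ) ≠ 0 := by
        rw [Ne, Complex.ofReal_eq_zero]
        linarith
      have h6 : Differentiable ℂ fun s : ℂ => (Nm P : ℂ) ^ (-s) := fun s => (differentiable_id.neg s).const_cpow (Or.inl h5)
      exact ((differentiable_const 1).sub ((differentiable_const (g P)).mul h6)).mul hR
    · intro s hs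
      rw [EUL_step hCSM hTSL hg hP hP0 s hs, hRs s hs]
      ring
    · intro s
      show ‖(1 - g P * (Nm P : ℂ) ^ (-s)) * R s‖ ≤ _
      rw [Finset.prod_insert hPT, Real.mul_rpow (EUL_nm0 P) (Finset.prod_nonneg fun Q _ => EUL_nm0 Q), norm_mul]
      exact mul_le_mul (EUL_fac hP hP0 (g P) (hg.bd P) s) (hRb s) (norm_nonneg _) (Real.rpow_nonneg (EUL_nm0 P) _)

theorem EUL_prod {F : Type} [Field F] [NumberField F] (S : Finset (Ideal (𝓞 F))) : Nm (∏ P ∈ S, P) = ∏ P ∈ S, Nm P := by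
  unfold Nm
  rw [map_prod, Nat.cast_prod]

theorem EUL (hCSM : CSM_stmt) (hTSL : TSL_stmt) : EUL_stmt := by
  classical
  intro F _ _ q χ χq hq hχ hχq h1 h0
  let S : Finset (Ideal (𝓞 F)) := (UniqueFactorizationMonoid.normalizedFactors q).toFinset
  have hS : ∀ P ∈ S, P.IsPrime ∧ P ≠ ⊥ := by
    intro P hP
    have h2 : Prime P := UniqueFactorizationMonoid.prime_of_normalized_factor P (Multiset.mem_toFinset.1 hP)
    exact ⟨Ideal.isPrime_of_prime h2, h2.ne_zero⟩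
  obtain ⟨g, hg, hga, R, hR, hRs, hRb⟩ := EUL_ind hCSM hTSL hχ S hS
  have hgq : g = χq := by
    funext a
    rw [hga a]
    by_cases ha : a = ⊥
    · rw [ha, hχq.bot, hχ.bot]
      split_ifs <;> rfl
    · by_cases haq : a ⊔ q = ⊤
      · rw [if_neg, h1 a ha haq]
        rintro ⟨P, hP, hPa⟩
        have h3 : P ∣ q := UniqueFactorizationMonoid.dvd_of_mem_normalizedFactors (Multiset.mem_toFinset.1 hP)
        have h4 : a ⊔ q ≤ P := sup_le (Ideal.dvd_iff_le.1 hPa) (Ideal.dvd_iff_le.1 h3)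
        rw [haq] at h4
        exact (hS P hP).1.ne_top (top_le_iff.1 h4)
      · rw [if_pos, h0 a haq]
        obtain ⟨P, hPm, hPle⟩ := Ideal.exists_le_maximal _ haq
        have h5 : P ∣ q := Ideal.dvd_iff_le.2 (le_sup_right.trans hPle)
        have h6 : P ≠ ⊥ := fun h => hq (by rw [h] at h5; exact zero_dvd_iff.1 h5)
        have h7 : P ∈ UniqueFactorizationMonoid.normalizedFactors q := (Ideal.mem_normalizedFactors_iff hq).2 ⟨hPm.isPrime, Ideal.dvd_iff_le.1 h5⟩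
        exact ⟨P, Multiset.mem_toFinset.2 h7, Ideal.dvd_iff_le.2 (le_sup_left.trans hPle)⟩
  have hprod : (∏ P ∈ S, Nm P) ≤ Nm q := by
    rw [← EUL_prod]
    have h8 : (∏ P ∈ S, P) ∣ q := by
      have h9 : (∏ P ∈ S, P) = (UniqueFactorizationMonoid.normalizedFactors q).dedup.prod := by
        show (Multiset.map (fun P => P) (UniqueFactorizationMonoid.normalizedFactors q).toFinset.val).prod = _
        rw [Multiset.map_id', Multiset.toFinset_val]
      rw [h9]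
      exact (Multiset.prod_dvd_prod_of_le (Multiset.dedup_le _)).trans (dvd_of_eq (Ideal.prod_normalizedFactors_eq_self hq))
    unfold Nm
    have h10 : 0 < Ideal.absNorm q := Nat.pos_of_ne_zero fun h => hq (Ideal.absNorm_eq_zero_iff.1 h)
    exact_mod_cast Nat.le_of_dvd h10 (map_dvd Ideal.absNorm h8)
  refine ⟨R, hR, ?_, ?_⟩
  · intro s hs
    rw [← hgq]
    exact hRs s hs
  · intro s
    exact (hRb s).trans (Real.rpow_le_rpow (Finset.prod_nonneg fun P _ => EUL_nm0 P) hprod (by positivity))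

end Pool.Agent.CH
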