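import Pool.Agent.helper82.CH.SpecE

set_option autoImplicit false

open Complex

namespace Pool.Agent.CHE

theorem THB_head (j : ℕ) (hj : 1 ≤ j) (v : ℝ) (hv : 0 ≤ v) (hv2 : v ≤ ((j + 1 : ℕ) : ℝ) / 60) :
    v ^ j / (j.factorial : ℝ) ≤ (11⁻¹ : ℝ) ^ j := by
  have hj0 : (1 : ℝ) ≤ j := by exact_mod_cast hj
  have hjp : (0 : ℝ) < j := by linarith
  have hf : (0 : ℝ) < (j.factorial : ℝ) := by exact_mod_cast Nat.factorial_pos j
  have h1 : (j : ℝ) ^ j / (j.factorial : ℝ) ≤ Real.exp 1 ^ j := by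
    have := Real.pow_div_factorial_le_exp (x := (j : ℝ)) (by positivity) j
    rw [← Real.exp_nat_mul, mul_one]
    exact this
  have h2 : v ≤ (11⁻¹ / Real.exp 1) * j := by
    push_cast at hv2
    have he := Real.exp_one_lt_d9
    have hep := Real.exp_pos 1
    rw [div_mul_eq_mul_div, le_div_iff₀ hep]
    nlinarith
  have hep := Real.exp_pos 1
  calc v ^ j / (j.factorial : ℝ) ≤ ((11⁻¹ / Real.exp 1) * j) ^ j / (j.factorial : ℝ) := by
        apply div_le_div_of_nonneg_right _ hf.le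
        exact pow_le_pow_left₀ hv h2 j
    _ = (11⁻¹ / Real.exp 1) ^ j * ((j : ℝ) ^ j / (j.factorial : ℝ)) := by
        rw [mul_pow]
        ring
    _ ≤ (11⁻¹ / Real.exp 1) ^ j * Real.exp 1 ^ j := mul_le_mul_of_nonneg_left h1 (by positivity)
    _ = (11⁻¹ : ℝ) ^ j := by
        rw [← mul_pow]
        congr 1
        field_simp

theorem THB_tail (j : ℕ) (v : ℝ) (hv2 : 100 * ((j + 1 : ℕ) : ℝ) ≤ v) :
    v ^ j / (j.factorial : ℝ) * Real.exp (-(v / 2)) ≤ (11⁻¹ : ℝ) ^ j := by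
  have hj0 : (0 : ℝ) ≤ j := Nat.cast_nonneg j
  push_cast at hv2
  have hv : 0 ≤ v := by linarith
  have h1 : (v / 4) ^ j / (j.factorial : ℝ) ≤ Real.exp (v / 4) :=
    Real.pow_div_factorial_le_exp (x := v / 4) (by positivity) j
  have h2 : v ^ j / (j.factorial : ℝ) = 4 ^ j * ((v / 4) ^ j / (j.factorial : ℝ)) := by
    rw [div_pow]
    field_simp
  have h3 : Real.exp (v / 4) * Real.exp (-(v / 2)) ≤ (Real.exp (-25)) ^ j := by
    rw [← Real.exp_add, ← Real.exp_nat_mul]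
    apply Real.exp_le_exp.mpr
    nlinarith
  have h4 : (4 : ℝ) * Real.exp (-25) ≤ 11⁻¹ := by
    rw [Real.exp_neg]
    have h5 : (44 : ℝ) ≤ Real.exp 25 := by
      have h6 : (12.5 : ℝ) + 1 ≤ Real.exp 12.5 := Real.add_one_le_exp _
      have h7 : Real.exp 25 = Real.exp 12.5 * Real.exp 12.5 := by
        rw [← Real.exp_add]
        norm_num
      rw [h7]
      nlinarith
    have h8 : (0 : ℝ) < Real.exp 25 := Real.exp_pos _
    rw [← div_eq_mul_inv, div_le_iff₀ h8]
    linarith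
  calc v ^ j / (j.factorial : ℝ) * Real.exp (-(v / 2))
      = 4 ^ j * ((v / 4) ^ j / (j.factorial : ℝ)) * Real.exp (-(v / 2)) := by rw [h2]
    _ ≤ 4 ^ j * Real.exp (v / 4) * Real.exp (-(v / 2)) := by
        apply mul_le_mul_of_nonneg_right _ (Real.exp_pos _).le
        exact mul_le_mul_of_nonneg_left h1 (by positivity)
    _ = 4 ^ j * (Real.exp (v / 4) * Real.exp (-(v / 2))) := by ring
    _ ≤ 4 ^ j * (Real.exp (-25)) ^ j := mul_le_mul_of_nonneg_left h3 (by positivity)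
    _ = (4 * Real.exp (-25)) ^ j := by rw [mul_pow]
    _ ≤ (11⁻¹ : ℝ) ^ j := pow_le_pow_left₀ (by positivity) h4 j

theorem THB (hVMS : VMS_stmt) : THB_stmt := by
  obtain ⟨K0, hK0, h⟩ := hVMS
  refine ⟨3 * K0, by linarith, ?_⟩
  intro δ j hδ hδ1 hj
  obtain ⟨s1, t1⟩ := h δ hδ hδ1
  obtain ⟨s2, t2⟩ := h (δ / 2) (by positivity) (by linarith)
  set F : ℕ → ℝ := fun k => (if ((j + 1 : ℕ) : ℝ) / 60 ≤ δ * Real.log k ∧ δ * Real.log k ≤ 100 * ((j + 1 : ℕ) : ℝ) then 0 else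
    δ ^ (j + 1) * (VM k * (Real.log k ^ j / (j.factorial : ℝ)) * (k : ℝ) ^ (-(1 + δ)))) with hF
  set G : ℕ → ℝ := fun k => ((11⁻¹ : ℝ) ^ j * δ) * (VM k * (k : ℝ) ^ (-(1 + δ)) + VM k * (k : ℝ) ^ (-(1 + δ / 2))) with hG
  have hVM : ∀ k : ℕ, 0 ≤ VM k := fun k => ArithmeticFunction.vonMangoldt_nonneg
  have hlog : ∀ k : ℕ, 0 ≤ Real.log k := fun k => Real.log_natCast_nonneg k
  have hF0 : ∀ k, 0 ≤ F k := by
    intro k
    simp only [hF]
    split_ifs
    · exact le_rfl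
    · have h1 := hVM k
      have h2 := hlog k
      have h3 : (0 : ℝ) ≤ (k : ℝ) ^ (-(1 + δ)) := Real.rpow_nonneg (Nat.cast_nonneg k) _
      positivity
  have hFG : ∀ k, F k ≤ G k := by
    intro k
    have h1 := hVM k
    have h2 := hlog k
    have h3 : (0 : ℝ) ≤ (k : ℝ) ^ (-(1 + δ)) := Real.rpow_nonneg (Nat.cast_nonneg k) _
    have h4 : (0 : ℝ) ≤ (k : ℝ) ^ (-(1 + δ / 2)) := Real.rpow_nonneg (Nat.cast_nonneg k) _
    have hG0 : 0 ≤ G k := by
      simp only [hG]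
      positivity
    simp only [hF]
    split_ifs with hc
    · exact hG0
    · have hterm : δ ^ (j + 1) * (VM k * (Real.log k ^ j / (j.factorial : ℝ)) * (k : ℝ) ^ (-(1 + δ))) =
          δ * (VM k * (k : ℝ) ^ (-(1 + δ))) * ((δ * Real.log k) ^ j / (j.factorial : ℝ)) := by
        rw [mul_pow, pow_succ]
        ring
      rw [hterm]
      rw [not_and_or, not_le, not_le] at hc
      rcases hc with hc | hc
      · have h5 := THB_head j hj (δ * Real.log k) (by positivity) hc.le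
        calc δ * (VM k * (k : ℝ) ^ (-(1 + δ))) * ((δ * Real.log k) ^ j / (j.factorial : ℝ))
            ≤ δ * (VM k * (k : ℝ) ^ (-(1 + δ))) * (11⁻¹ : ℝ) ^ j := mul_le_mul_of_nonneg_left h5 (by positivity)
          _ ≤ G k := by
              simp only [hG]
              have h6 : 0 ≤ (11⁻¹ : ℝ) ^ j * δ * (VM k * (k : ℝ) ^ (-(1 + δ / 2))) := by positivity
              nlinarith
      · rcases Nat.eq_zero_or_pos k with hk | hk
        · subst hk
          have h7 : (100 : ℝ) * ((j + 1 : ℕ) : ℝ) < 0 := by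
            simpa using hc
          have h8 : (0 : ℝ) ≤ ((j + 1 : ℕ) : ℝ) := Nat.cast_nonneg _
          linarith
        · have hk0 : (0 : ℝ) < k := by exact_mod_cast hk
          have h5 := THB_tail j (δ * Real.log k) hc.le
          have h6 : (k : ℝ) ^ (-(1 + δ)) = (k : ℝ) ^ (-(1 + δ / 2)) * Real.exp (-(δ * Real.log k / 2)) := by
            have : Real.exp (-(δ * Real.log k / 2)) = (k : ℝ) ^ (-(δ / 2)) := by
              rw [Real.rpow_def_of_pos hk0]
              congr 1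
              ring
            rw [this, ← Real.rpow_add hk0]
            congr 1
            ring
          rw [h6]
          calc δ * (VM k * ((k : ℝ) ^ (-(1 + δ / 2)) * Real.exp (-(δ * Real.log k / 2)))) * ((δ * Real.log k) ^ j / (j.factorial : ℝ))
              = δ * (VM k * (k : ℝ) ^ (-(1 + δ / 2))) * ((δ * Real.log k) ^ j / (j.factorial : ℝ) * Real.exp (-(δ * Real.log k / 2))) := by ring
            _ ≤ δ * (VM k * (k : ℝ) ^ (-(1 + δ / 2))) * (11⁻¹ : ℝ) ^ j := mul_le_mul_of_nonneg_left h5 (by positivity)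
            _ ≤ G k := by
                simp only [hG]
                have h6 : 0 ≤ (11⁻¹ : ℝ) ^ j * δ * (VM k * (k : ℝ) ^ (-(1 + δ))) := by positivity
                nlinarith
  have hGs : Summable G := (s1.add s2).mul_left _
  have hFs : Summable F := Summable.of_nonneg_of_le hF0 hFG hGs
  calc ∑' k, F k ≤ ∑' k, G k := hFs.tsum_le_tsum hFG hGs
    _ = ((11⁻¹ : ℝ) ^ j * δ) * (∑' k : ℕ, VM k * (k : ℝ) ^ (-(1 + δ)) + ∑' k : ℕ, VM k * (k : ℝ) ^ (-(1 + δ / 2))) := by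
        simp only [hG]
        rw [tsum_mul_left, s1.tsum_add s2]
    _ ≤ ((11⁻¹ : ℝ) ^ j * δ) * (K0 / δ + K0 / (δ / 2)) := mul_le_mul_of_nonneg_left (add_le_add t1 t2) (by positivity)
    _ = 3 * K0 * (11⁻¹ : ℝ) ^ j := by
        field_simp
        ring

end Pool.Agent.CHE
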