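import Pool.Agent.helper82.CH.SpecE

set_option autoImplicit false

open Complex

namespace Pool.Agent.CHE

theorem ZFR_mem {Y : Type} [CommGroup Y] [Fintype Y] {C l : ℝ} {b : Y → ℕ → ℝ} {E : (Y →* ℂˣ) → ℂ → ℂ} (hS : Sys C l b E)
    (χ : Y →* ℂˣ) {t₀ R : ℝ} {N : ℕ} {ρ : Fin N → ℂ} (hZ : ZL C l b E χ t₀ R N ρ) (a : ℂ) (ha : ‖a - (2 + t₀ * I)‖ ≤ R / 2)
    (h0 : E χ a = 0) : ∃ i, ρ i = a := by
  have han : AnalyticOnNhd ℂ (E χ) Set.univ := fun z _ => (hS.diff χ).analyticAt z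
  have hne : analyticOrderAt (E χ) a ≠ 0 := by
    rw [Ne, AnalyticAt.analyticOrderAt_eq_zero (han a (Set.mem_univ _))]
    simpa using h0
  have hnt : analyticOrderAt (E χ) a ≠ ⊤ := by
    intro htop
    rw [analyticOrderAt_eq_top] at htop
    have heq := han.eqOn_zero_of_preconnected_of_eventuallyEq_zero isPreconnected_univ (Set.mem_univ a) htop
    have h2 := heq (Set.mem_univ (2 : ℂ))
    exact hS.ne χ 2 (by norm_num) h2
  have hpos : analyticOrderNatAt (E χ) a ≠ 0 := by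
    unfold analyticOrderNatAt
    intro h
    rcases ENat.toNat_eq_zero.mp h with h | h
    · exact hne h
    · exact hnt h
  rw [← hZ.mult a ha] at hpos
  have hn : Nonempty {i // ρ i = a} := by
    by_contra hcon
    rw [not_nonempty_iff] at hcon
    exact hpos (by simp)
  obtain ⟨i, hi⟩ := hn
  exact ⟨i, hi⟩

theorem ZFR (hZFA : ZFA_stmt) (hZFB : ZFB_stmt) (hCNJ : CNJ_stmt) : ZFR_stmt := by
  intro q C
  obtain ⟨c0, hc0, hc01, hA⟩ := hZFA q C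
  obtain ⟨c', hc', hc'1, hB⟩ := hZFB q C (c0 / 2) (by positivity)
  refine ⟨min (c0 / 2) c', lt_min (by positivity) hc', lt_of_le_of_lt (min_le_right _ _) hc'1, ?_⟩
  intro Y _ _ l b E N ρ hq hS hL p hp
  have hl : 1 ≤ l := hS.l1
  have hl0 : 0 < l := by linarith
  have him20 : ∀ p : Σ χ, Fin (N χ), |(ρ p.1 p.2).im| ≤ 20 := by
    intro p
    have h1 := (hL p.1).dist p.2
    have h2 := Complex.abs_im_le_norm (ρ p.1 p.2 - (2 + ((0 : ℝ) : ℂ) * I))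
    have h3 : (ρ p.1 p.2 - (2 + ((0 : ℝ) : ℂ) * I)).im = (ρ p.1 p.2).im := by simp
    rw [h3] at h2
    linarith
  have hnear : ∀ p : Σ χ, Fin (N χ), 1 - min (c0 / 2) c' / l < (ρ p.1 p.2).re → ‖1 - ρ p.1 p.2‖ ≤ c0 / l := by
    intro p hp
    have him : |(ρ p.1 p.2).im| < c0 / 2 / l := by
      by_contra hcon
      rw [not_lt] at hcon
      have h1 := hB Y l b E hq hS p.1 (ρ p.1 p.2) ((hL p.1).zero p.2) hcon (him20 p)
      have h2 : min (c0 / 2) c' / l ≤ c' / l := div_le_div_of_nonneg_right (min_le_right _ _) hl0.le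
      linarith
    have hre : (ρ p.1 p.2).re ≤ 1 := (hL p.1).re1 p.2
    have h2 : min (c0 / 2) c' / l ≤ c0 / 2 / l := div_le_div_of_nonneg_right (min_le_left _ _) hl0.le
    have h3 := Complex.norm_le_abs_re_add_abs_im (1 - ρ p.1 p.2)
    have h4 : (1 - ρ p.1 p.2).re = 1 - (ρ p.1 p.2).re := by simp
    have h5 : (1 - ρ p.1 p.2).im = -(ρ p.1 p.2).im := by simp
    rw [h4, h5, abs_neg, abs_of_nonneg (by linarith : 0 ≤ 1 - (ρ p.1 p.2).re)] at h3
    have h6 : c0 / l = c0 / 2 / l + c0 / 2 / l := by ring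
    rw [h6]
    linarith
  have huniq : ∀ p' : Σ χ, Fin (N χ), 1 - min (c0 / 2) c' / l < (ρ p'.1 p'.2).re → p = p' := fun p' hp' =>
    hA Y l b E N ρ hq hS hL p p' (hnear p hp) (hnear p' hp')
  -- the conjugate zero
  have hz := hCNJ Y C l b E hS p.1 (ρ p.1 p.2) ((hL p.1).zero p.2)
  have hd : ‖(starRingEnd ℂ) (ρ p.1 p.2) - (2 + ((0 : ℝ) : ℂ) * I)‖ ≤ 40 / 2 := by
    have h1 := (hL p.1).dist p.2
    have h2 : (starRingEnd ℂ) (ρ p.1 p.2) - (2 + ((0 : ℝ) : ℂ) * I) = (starRingEnd ℂ) (ρ p.1 p.2 - (2 + ((0 : ℝ) : ℂ) * I)) := by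
      apply Complex.ext
      · simp
      · simp
    rw [h2, RCLike.norm_conj]
    exact h1
  obtain ⟨i, hi⟩ := ZFR_mem hS p.1⁻¹ (hL p.1⁻¹) _ hd hz
  have hre' : 1 - min (c0 / 2) c' / l < (ρ p.1⁻¹ i).re := by
    rw [hi, Complex.conj_re]
    exact hp
  have heq : p = ⟨p.1⁻¹, i⟩ := huniq ⟨p.1⁻¹, i⟩ hre'
  refine ⟨?_, ?_, ?_⟩
  · have h1 : ρ p.1 p.2 = (starRingEnd ℂ) (ρ p.1 p.2) := by
      have h2 : ρ p.1 p.2 = ρ p.1⁻¹ i := congrArg (fun p : Σ χ, Fin (N χ) => ρ p.1 p.2) heq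
      rw [hi] at h2
      exact h2
    have h3 := congrArg Complex.im h1
    rw [Complex.conj_im] at h3
    linarith
  · have h1 : p.1 = p.1⁻¹ := congrArg Sigma.fst heq
    rw [pow_two]
    nth_rewrite 2 [h1]
    exact mul_inv_cancel p.1
  · intro p' hne
    by_contra hcon
    rw [not_le] at hcon
    exact hne (huniq p' hcon).symm

end Pool.Agent.CHE
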