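import Pool.Agent.helper82.CH.Ort
import Pool.Agent.helper20.CH.ZFR

set_option autoImplicit false

open Complex

namespace Pool.Agent.CHE

section

variable {Y : Type} [CommGroup Y] [Fintype Y] {C l : ℝ} {b : Y → ℕ → ℝ} {E : (Y →* ℂˣ) → ℂ → ℂ}

theorem ZFB_b1 (hS : Sys C l b E) (k : ℕ) : ‖(b 1 k : ℂ)‖ ≤ ‖((C : ℂ) * (VM k : ℂ))‖ := by
  have h0 := hS.nonneg 1 k
  have hC := hS.C1
  have hV : 0 ≤ VM k := ArithmeticFunction.vonMangoldt_nonneg
  rw [Complex.norm_real, Real.norm_of_nonneg h0, norm_mul, Complex.norm_real, Complex.norm_real,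
    Real.norm_of_nonneg (by linarith : (0 : ℝ) ≤ C), Real.norm_of_nonneg hV]
  refine le_trans ?_ (hS.bd k)
  exact Finset.single_le_sum (f := fun y => b y k) (fun y _ => hS.nonneg y k) (Finset.mem_univ 1)

theorem ZFB_ak (hS : Sys C l b E) (χ : Y →* ℂˣ) (k : ℕ) : ‖ak b χ k‖ ≤ ‖((C : ℂ) * (VM k : ℂ))‖ := by
  have hC := hS.C1
  have hV : 0 ≤ VM k := ArithmeticFunction.vonMangoldt_nonneg
  rw [norm_mul, Complex.norm_real, Complex.norm_real, Real.norm_of_nonneg (by linarith : (0 : ℝ) ≤ C), Real.norm_of_nonneg hV]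
  exact (ORT_aknorm b hS.nonneg χ k).trans (hS.bd k)

theorem ZFB_summ (C : ℝ) {f : ℕ → ℂ} (hf : ∀ k, ‖f k‖ ≤ ‖((C : ℂ) * (VM k : ℂ))‖) {s : ℂ} (hs : 1 < s.re) : LSeriesSummable f s := by
  have h1 : LSeriesSummable (fun n => (ArithmeticFunction.vonMangoldt n : ℂ)) s := ArithmeticFunction.LSeriesSummable_vonMangoldt hs
  have h2 : LSeriesSummable ((C : ℂ) • (fun n : ℕ => (ArithmeticFunction.vonMangoldt n : ℂ))) s := h1.smul (C : ℂ)
  refine Summable.of_norm_bounded h2.norm fun k => ?_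
  exact LSeries.norm_term_le s (hf k)

theorem ZFB_tot (hS : Sys C l b E) {s : ℂ} (hs : 1 < s.re) :
    ∑ χ : Y →* ℂˣ, LSeries (ak b χ) s = (Fintype.card Y : ℂ) * LSeries (fun k => (b 1 k : ℂ)) s := by
  unfold LSeries
  rw [← tsum_mul_left]
  rw [← Summable.tsum_finsetSum fun χ _ => ZFB_summ C (ZFB_ak hS χ) hs]
  refine tsum_congr fun k => ?_
  rcases Nat.eq_zero_or_pos k with hk | hk
  · subst hk
    simp
  · have hk0 : k ≠ 0 := by omega
    simp_rw [LSeries.term_of_ne_zero hk0]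
    rw [← Finset.sum_div, ORT_ak, mul_div_assoc]

/-- the real part of a term -/
theorem ZFB_term (c δ t : ℝ) (k : ℕ) (hk : k ≠ 0) (f : ℕ → ℝ) (hf : f k = c) :
    (LSeries.term (fun k => (f k : ℂ)) (1 + δ + t * I) k).re = c * Real.exp (-(Real.log k * (1 + δ))) * Real.cos (t * Real.log k) := by
  rw [LSeries.term_of_ne_zero hk, hf]
  have hk0 : (k : ℂ) ≠ 0 := by exact_mod_cast hk
  rw [Complex.cpow_def_of_ne_zero hk0, div_eq_mul_inv, ← Complex.exp_neg, Complex.natCast_log.symm]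
  rw [Complex.re_ofReal_mul, Complex.exp_re]
  have h1 : ∀ L : ℝ, (-((L : ℂ) * (1 + δ + t * I))).re = -(L * (1 + δ)) := by
    intro L
    simp
  have h2 : ∀ L : ℝ, (-((L : ℂ) * (1 + δ + t * I))).im = -(t * L) := by
    intro L
    simp
    ring
  rw [h1, h2, Real.cos_neg]
  ring

theorem ZFB_341 (hS : Sys C l b E) (δ γ : ℝ) (hδ : 0 < δ) :
    0 ≤ 3 * (LSeries (fun k => (b 1 k : ℂ)) (1 + δ + ((0 : ℝ) : ℂ) * I)).re + 4 * (LSeries (fun k => (b 1 k : ℂ)) (1 + δ + (γ : ℂ) * I)).re +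
      (LSeries (fun k => (b 1 k : ℂ)) (1 + δ + ((2 * γ : ℝ) : ℂ) * I)).re := by
  have hs : ∀ t : ℝ, 1 < (1 + (δ : ℂ) + (t : ℂ) * I).re := by
    intro t
    simp
    exact hδ
  have hsum : ∀ t : ℝ, Summable fun k => (LSeries.term (fun k => (b 1 k : ℂ)) (1 + δ + (t : ℂ) * I) k).re := by
    intro t
    have h1 : LSeriesSummable (fun k => (b 1 k : ℂ)) (1 + δ + (t : ℂ) * I) := ZFB_summ C (ZFB_b1 hS) (hs t)
    exact (Complex.hasSum_re h1.hasSum).summable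
  have hre : ∀ t : ℝ, (LSeries (fun k => (b 1 k : ℂ)) (1 + δ + (t : ℂ) * I)).re =
      ∑' k, (LSeries.term (fun k => (b 1 k : ℂ)) (1 + δ + (t : ℂ) * I) k).re := by
    intro t
    have h1 : LSeriesSummable (fun k => (b 1 k : ℂ)) (1 + δ + (t : ℂ) * I) := ZFB_summ C (ZFB_b1 hS) (hs t)
    unfold LSeries
    exact Complex.re_tsum h1
  rw [hre, hre, hre, ← tsum_mul_left, ← tsum_mul_left, ← ((hsum 0).mul_left 3).tsum_add ((hsum γ).mul_left 4),
    ← (((hsum 0).mul_left 3).add ((hsum γ).mul_left 4)).tsum_add (hsum (2 * γ))]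
  refine tsum_nonneg fun k => ?_
  rcases Nat.eq_zero_or_pos k with hk | hk
  · subst hk
    simp
  · have hk0 : k ≠ 0 := by omega
    rw [ZFB_term (b 1 k) δ 0 k hk0 (b 1) rfl, ZFB_term (b 1 k) δ γ k hk0 (b 1) rfl, ZFB_term (b 1 k) δ (2 * γ) k hk0 (b 1) rfl]
    have h1 : Real.cos (2 * γ * Real.log k) = 2 * Real.cos (γ * Real.log k) ^ 2 - 1 := by
      rw [← Real.cos_two_mul]
      congr 1
      ring
    rw [h1, zero_mul, Real.cos_zero]
    have h2 : 0 ≤ b 1 k * Real.exp (-(Real.log k * (1 + δ))) := mul_nonneg (hS.nonneg 1 k) (Real.exp_pos _).le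
    nlinarith [mul_nonneg h2 (sq_nonneg (1 + Real.cos (γ * Real.log k)))]

theorem ZFB_inv {z : ℂ} (hz : 0 ≤ z.re) : 0 ≤ (1 / z).re := by
  rw [one_div, Complex.inv_re]
  exact div_nonneg hz (Complex.normSq_nonneg z)

/-- the inequality for one character -/
theorem ZFB_one (χ : Y →* ℂˣ) {t : ℝ} {N : ℕ} {ρ : Fin N → ℂ} (hZ : ZL C l b E χ t 40 N ρ) (δ : ℝ) (hδ : 0 < δ) (hδ1 : δ ≤ 1) :
    (LSeries (ak b χ) (1 + δ + (t : ℂ) * I)).re ≤ (dl χ / ((1 + δ + (t : ℂ) * I) - 1)).re -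
      ∑ i, (1 / ((1 + δ + (t : ℂ) * I) - ρ i)).re + 6 / 5 * MM C l 40 := by
  have hs : 1 < (1 + (δ : ℂ) + (t : ℂ) * I).re := by
    simp
    exact hδ
  have hd : ‖(1 + (δ : ℂ) + (t : ℂ) * I) - (2 + (t : ℂ) * I)‖ ≤ 40 / 4 := by
    have h1 : (1 + (δ : ℂ) + (t : ℂ) * I) - (2 + (t : ℂ) * I) = ((δ - 1 : ℝ) : ℂ) := by
      push_cast
      ring
    rw [h1, Complex.norm_real, Real.norm_eq_abs, abs_le]
    constructor <;> linarith
  have h := hZ.form _ hs hd 0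
  have h0 : (fun k : ℕ => ak b χ k * ((Real.log k : ℂ) ^ 0 / ((0 : ℕ).factorial : ℂ))) = ak b χ := by
    funext k
    simp
  rw [h0] at h
  simp only [zero_add, pow_one] at h
  have h1 := (Complex.abs_re_le_norm _).trans h
  rw [Complex.add_re, Complex.sub_re, Complex.re_sum] at h1
  have h2 := (abs_le.mp h1).2
  have h3 : 6 * MM C l 40 * (((0 : ℕ) : ℝ) + 1) * (8 / 40) = 6 / 5 * MM C l 40 := by
    norm_num
    ring
  rw [h3] at h2
  linarith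

theorem ZFB_dl : ∑ χ : Y →* ℂˣ, (dl χ : ℂ) = 1 := by
  classical
  unfold dl
  simp

/-- the inequality for the sum over the characters; `e` = a nonnegative number which is at most the contribution of the zeros -/
theorem ZFB_all (hS : Sys C l b E) {t : ℝ} {N : (Y →* ℂˣ) → ℕ} {ρ : (χ : Y →* ℂˣ) → Fin (N χ) → ℂ}
    (hZ : ∀ χ, ZL C l b E χ t 40 (N χ) (ρ χ)) (δ : ℝ) (hδ : 0 < δ) (hδ1 : δ ≤ 1) :
    (Fintype.card Y : ℝ) * (LSeries (fun k => (b 1 k : ℂ)) (1 + δ + (t : ℂ) * I)).re ≤ (1 / ((δ : ℂ) + (t : ℂ) * I)).re -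
      ∑ χ, ∑ i, (1 / ((1 + δ + (t : ℂ) * I) - ρ χ i)).re + Fintype.card Y * (6 / 5 * MM C l 40) := by
  have hs : 1 < (1 + (δ : ℂ) + (t : ℂ) * I).re := by
    simp
    exact hδ
  have h1 : (Fintype.card Y : ℝ) * (LSeries (fun k => (b 1 k : ℂ)) (1 + δ + (t : ℂ) * I)).re =
      ∑ χ : Y →* ℂˣ, (LSeries (ak b χ) (1 + δ + (t : ℂ) * I)).re := by
    rw [← Complex.re_sum, ZFB_tot hS hs]
    have : ((Fintype.card Y : ℂ)) = (((Fintype.card Y : ℝ)) : ℂ) := by simp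
    rw [this, Complex.re_ofReal_mul]
  have h2 : ∑ χ : Y →* ℂˣ, (dl χ / ((1 + δ + (t : ℂ) * I) - 1)).re = (1 / ((δ : ℂ) + (t : ℂ) * I)).re := by
    rw [← Complex.re_sum, ← Finset.sum_div, ZFB_dl]
    congr 2
    ring
  rw [h1]
  calc ∑ χ : Y →* ℂˣ, (LSeries (ak b χ) (1 + δ + (t : ℂ) * I)).re
      ≤ ∑ χ : Y →* ℂˣ, ((dl χ / ((1 + δ + (t : ℂ) * I) - 1)).re - ∑ i, (1 / ((1 + δ + (t : ℂ) * I) - ρ χ i)).re + 6 / 5 * MM C l 40) :=
        Finset.sum_le_sum fun χ _ => ZFB_one χ (hZ χ) δ hδ hδ1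
    _ = _ := by
        rw [Finset.sum_add_distrib, Finset.sum_sub_distrib, h2, Finset.sum_const, Finset.card_univ, ORT_card, nsmul_eq_mul]

end

theorem ZFB (hEFX : EFX_stmt) : ZFB_stmt := by
  classical
  intro q C c₁ hc₁
  obtain ⟨K, hK⟩ : ∃ K : ℝ, K = 48 / 5 * ((q : ℝ) + 1) * (12101 * max C 1) := ⟨_, rfl⟩
  obtain ⟨A, hA⟩ : ∃ A : ℝ, A = 5 / c₁ ^ 2 := ⟨_, rfl⟩
  have hq0 : (0 : ℝ) ≤ q := Nat.cast_nonneg q
  have hmx : (1 : ℝ) ≤ max C 1 := le_max_right _ _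
  have hK0 : 0 < K := by rw [hK]; positivity
  have hA0 : 0 < A := by rw [hA]; positivity
  obtain ⟨η, hη⟩ : ∃ η : ℝ, η = 1 / (2 * (A + K) + 1) := ⟨_, rfl⟩
  have hη0 : 0 < η := by rw [hη]; positivity
  have hη1 : η ≤ 1 := by
    rw [hη, div_le_one (by positivity)]
    linarith
  have hη2 : (A + K) * η ≤ 1 / 2 := by
    rw [hη, mul_one_div, div_le_div_iff₀ (by positivity) two_pos]
    linarith
  refine ⟨η / 8, by positivity, by linarith, ?_⟩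
  intro Y _ _ l b E hq hS χ ρ₀ hρ₀ hγ1 hγ2
  have hl : 1 ≤ l := hS.l1
  have hl0 : 0 < l := by linarith
  have hC1 := hS.C1
  have hmC : max C 1 = C := max_eq_left hC1
  by_contra hcon
  rw [not_le] at hcon
  obtain ⟨γ, hγ⟩ : ∃ γ : ℝ, γ = ρ₀.im := ⟨_, rfl⟩
  obtain ⟨β, hβ⟩ : ∃ β : ℝ, β = ρ₀.re := ⟨_, rfl⟩
  rw [← hγ] at hγ1 hγ2
  rw [← hβ] at hcon
  obtain ⟨δ, hδ⟩ : ∃ δ : ℝ, δ = η / l := ⟨_, rfl⟩
  have hδ0 : 0 < δ := by rw [hδ]; positivity
  have hδ1 : δ ≤ 1 := by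
    rw [hδ, div_le_one hl0]
    linarith
  -- the lists
  have hlist : ∀ t : ℝ, |t| ≤ 60 → ∃ (N : (Y →* ℂˣ) → ℕ) (ρ : (χ : Y →* ℂˣ) → Fin (N χ) → ℂ), ∀ χ, ZL C l b E χ t 40 (N χ) (ρ χ) := by
    intro t ht
    have h1 : ∀ χ, ∃ (N : ℕ) (ρ : Fin N → ℂ), ZL C l b E χ t 40 N ρ := fun χ => hEFX Y C l b E hS χ t 40 ht (by norm_num)
    choose N ρ h using h1
    exact ⟨N, ρ, h⟩
  have hzpos : ∀ (t : ℝ) (N : (Y →* ℂˣ) → ℕ) (ρ : (χ : Y →* ℂˣ) → Fin (N χ) → ℂ), (∀ χ, ZL C l b E χ t 40 (N χ) (ρ χ)) →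
      ∀ χ i, 0 ≤ (1 / ((1 + δ + (t : ℂ) * I) - ρ χ i)).re := by
    intro t N ρ h χ i
    apply ZFB_inv
    have h1 := (h χ).re1 i
    have h2 : ((1 + (δ : ℂ) + (t : ℂ) * I) - ρ χ i).re = 1 + δ - (ρ χ i).re := by simp
    rw [h2]
    linarith
  obtain ⟨Mx, hMx⟩ : ∃ Mx : ℝ, Mx = Fintype.card Y * (6 / 5 * MM C l 40) := ⟨_, rfl⟩
  have hup : ∀ t : ℝ, |t| ≤ 60 → (Fintype.card Y : ℝ) * (LSeries (fun k => (b 1 k : ℂ)) (1 + δ + (t : ℂ) * I)).re ≤
      (1 / ((δ : ℂ) + (t : ℂ) * I)).re + Mx := by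
    intro t ht
    obtain ⟨N, ρ, h⟩ := hlist t ht
    have h1 := ZFB_all hS h δ hδ0 hδ1
    have h2 : 0 ≤ ∑ χ, ∑ i, (1 / ((1 + δ + (t : ℂ) * I) - ρ χ i)).re :=
      Finset.sum_nonneg fun χ _ => Finset.sum_nonneg fun i _ => hzpos t N ρ h χ i
    rw [hMx]
    linarith
  have hβ1 : β ≤ 1 := by
    by_contra h
    rw [not_le] at h
    exact hS.ne χ ρ₀ (by rw [← hβ]; exact h) hρ₀
  have hβ0 : 0 ≤ β := by
    have h1 : η / 8 / l ≤ 1 := by
      rw [div_le_one hl0]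
      linarith
    linarith
  have hmain : (Fintype.card Y : ℝ) * (LSeries (fun k => (b 1 k : ℂ)) (1 + δ + (γ : ℂ) * I)).re ≤
      (1 / ((δ : ℂ) + (γ : ℂ) * I)).re - 1 / (1 + δ - β) + Mx := by
    obtain ⟨N, ρ, h⟩ := hlist γ (by linarith)
    have h1 := ZFB_all hS h δ hδ0 hδ1
    have hd : ‖ρ₀ - (2 + (γ : ℂ) * I)‖ ≤ 40 / 2 := by
      have h2 : ρ₀ - (2 + (γ : ℂ) * I) = ((β - 2 : ℝ) : ℂ) := by
        apply Complex.ext
        · simp [hβ]
        · simp [hγ]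
      rw [h2, Complex.norm_real, Real.norm_eq_abs, abs_le]
      constructor <;> linarith
    obtain ⟨i, hi⟩ := ZFR_mem hS χ (h χ) ρ₀ hd hρ₀
    have h2 : (1 / ((1 + δ + (γ : ℂ) * I) - ρ χ i)).re = 1 / (1 + δ - β) := by
      rw [hi]
      have h3 : (1 + (δ : ℂ) + (γ : ℂ) * I) - ρ₀ = ((1 + δ - β : ℝ) : ℂ) := by
        apply Complex.ext
        · simp [hβ]
        · simp [hγ]
      rw [h3, ← Complex.ofReal_one, ← Complex.ofReal_div, Complex.ofReal_re]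
    have h3 : 1 / (1 + δ - β) ≤ ∑ χ, ∑ i, (1 / ((1 + δ + (γ : ℂ) * I) - ρ χ i)).re := by
      rw [← h2]
      refine le_trans ?_ (Finset.single_le_sum (f := fun χ => ∑ i, (1 / ((1 + δ + (γ : ℂ) * I) - ρ χ i)).re)
        (fun χ _ => Finset.sum_nonneg fun i _ => hzpos γ N ρ h χ i) (Finset.mem_univ χ))
      exact Finset.single_le_sum (f := fun i => (1 / ((1 + δ + (γ : ℂ) * I) - ρ χ i)).re) (fun i _ => hzpos γ N ρ h χ i) (Finset.mem_univ i)
    rw [hMx]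
    linarith
  have h0 := hup 0 (by simp)
  have h2 := hup (2 * γ) (by rw [abs_mul, abs_two]; linarith)
  have h341 := ZFB_341 hS δ γ hδ0
  have hcY : (0 : ℝ) ≤ Fintype.card Y := Nat.cast_nonneg _
  have h341' := mul_nonneg hcY h341
  -- real parts
  have hre : ∀ t : ℝ, (1 / ((δ : ℂ) + (t : ℂ) * I)).re = δ / (δ ^ 2 + t ^ 2) := by
    intro t
    rw [one_div, Complex.inv_re, Complex.normSq_apply]
    simp
    ring
  rw [hre] at h0 h2 hmain
  have hγ0 : 0 < |γ| := lt_of_lt_of_le (by positivity) hγ1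
  have hγsq : c₁ ^ 2 / l ^ 2 ≤ γ ^ 2 := by
    rw [← sq_abs γ, ← div_pow]
    exact pow_le_pow_left₀ (by positivity) hγ1 2
  have hγp : 0 < γ ^ 2 := lt_of_lt_of_le (by positivity) hγsq
  have hr0 : δ / (δ ^ 2 + 0 ^ 2) = 1 / δ := by
    field_simp
    ring
  rw [hr0] at h0
  have hr1 : δ / (δ ^ 2 + γ ^ 2) ≤ δ / γ ^ 2 := div_le_div_of_nonneg_left hδ0.le hγp (by nlinarith [sq_nonneg δ])
  have hr2 : δ / (δ ^ 2 + (2 * γ) ^ 2) ≤ δ / γ ^ 2 := div_le_div_of_nonneg_left hδ0.le hγp (by nlinarith [sq_nonneg δ])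
  have hr3 : 5 * (δ / γ ^ 2) ≤ A * η * l := by
    have h1 : δ / γ ^ 2 ≤ δ / (c₁ ^ 2 / l ^ 2) := div_le_div_of_nonneg_left hδ0.le (by positivity) hγsq
    have h2 : 5 * (δ / (c₁ ^ 2 / l ^ 2)) = A * η * l := by
      rw [hA, hδ]
      field_simp
    linarith
  have hMM : 8 * Mx ≤ K * l := by
    have h1 : MM C l 40 ≤ 12101 * C * l := by
      unfold MM
      have h3 : Real.log (70 + 40) ≤ 109 := by
        have := Real.log_le_sub_one_of_pos (show (0 : ℝ) < 70 + 40 by norm_num)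
        linarith
      have h4 : C * (70 + 40) * (l + Real.log (70 + 40)) ≤ C * (70 + 40) * (l + 109 * l) := by
        apply mul_le_mul_of_nonneg_left _ (by linarith)
        nlinarith
      have h5 : C ≤ C * l := by nlinarith
      nlinarith
    have h2 : (Fintype.card Y : ℝ) ≤ q + 1 := by
      have : (Fintype.card Y : ℝ) ≤ q := by exact_mod_cast hq
      linarith
    rw [hMx, hK, hmC]
    have h3 : 6 / 5 * MM C l 40 ≤ 6 / 5 * (12101 * C * l) := by linarith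
    have h4 : (Fintype.card Y : ℝ) * (6 / 5 * MM C l 40) ≤ ((q : ℝ) + 1) * (6 / 5 * (12101 * C * l)) := by
      refine le_trans (mul_le_mul_of_nonneg_left h3 hcY) (mul_le_mul_of_nonneg_right h2 ?_)
      have : 0 ≤ C * l := by positivity
      linarith
    linarith
  obtain ⟨D, hD⟩ : ∃ D : ℝ, D = 1 + δ - β := ⟨_, rfl⟩
  rw [← hD] at hmain
  have hD0 : 0 < D := by rw [hD]; linarith
  have hfin : 4 * (1 / D) ≤ 3 * (1 / δ) + A * η * l + K * l := by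
    nlinarith
  have hd1 : 1 / δ = l / η := by rw [hδ, one_div_div]
  have hfin2 : A * η * l + K * l ≤ l / η / 2 := by
    have h1 : A * η + K ≤ 1 / (2 * η) := by
      rw [le_div_iff₀ (by positivity)]
      have h5 : A * η * η ≤ A * η := by
        have : A * η * η ≤ A * η * 1 := mul_le_mul_of_nonneg_left hη1 (by positivity)
        linarith
      nlinarith
    have h3 : (A * η + K) * l ≤ 1 / (2 * η) * l := mul_le_mul_of_nonneg_right h1 hl0.le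
    have h4 : 1 / (2 * η) * l = l / η / 2 := by
      field_simp
    linarith
  have hfin3 : 4 * (1 / D) ≤ 7 / 2 * (l / η) := by
    rw [hd1] at hfin
    linarith
  have hfin4 : 8 / 7 * (η / l) ≤ D := by
    have h1 : 4 ≤ 7 / 2 * (l / η) * D := by
      have := mul_le_mul_of_nonneg_right hfin3 hD0.le
      have h5 : 4 * (1 / D) * D = 4 := by field_simp
      linarith
    have h2 : 8 / 7 * (η / l) * (7 / 2 * (l / η) * D) = 4 * D := by
      field_simp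
      ring
    have h3 : 0 < 8 / 7 * (η / l) := by positivity
    nlinarith
  have hlast : η / 8 / l = (η / l) / 8 := by ring
  rw [hlast] at hcon
  have h9 : 0 < η / l := by positivity
  rw [hD, hδ] at hfin4
  linarith

end Pool.Agent.CHE
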