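import Pool.Agent.helper17.CH.SpecB

/-!
# MP_5628fe, row BQL: characters of large conductor, switched sequence
-/

set_option autoImplicit false

namespace Pool.Agent.CH

open Finset ArithmeticFunction
open GD (kp ks)

private theorem BQL_dy (f : ℕ → ℝ) (n : ℕ) :
    ∑ i ∈ range n, ∑ a ∈ Ioc (2 ^ i) (2 * 2 ^ i), f a = ∑ a ∈ Ioc 1 (2 ^ n), f a := by
  induction n with
  | zero => simp
  | succ n ih =>
    rw [sum_range_succ, ih]
    have h : 2 ^ (n + 1) = 2 * 2 ^ n := by ring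
    rw [h]
    exact sum_Ioc_consecutive f Nat.one_le_two_pow (by omega)

private theorem BQL_uniq (z y : ℝ) (a a' b b' : ℕ) (ha : K3 y a) (ha' : K3 y a')
    (hb : P1 z y b) (hb' : P1 z y b') (h : a * b = a' * b') : a = a' ∧ b = b' := by
  have hbb : b = b' := by
    have h1 : b ∣ a' * b' := ⟨a, by rw [← h]; ring⟩
    rcases (hb.1.dvd_mul).1 h1 with h2 | h2
    · exfalso
      obtain ⟨p₂, p₃, p₄, g2, g3, g4, hy, h23, h34, rfl⟩ := ha'
      have h23' : (p₂ : ℝ) ≤ p₃ := by exact_mod_cast h23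
      have h34' : (p₃ : ℝ) ≤ p₄ := by exact_mod_cast h34
      have hlt := hb.2.2
      rcases (hb.1.dvd_mul).1 h2 with h | h
      · rcases (hb.1.dvd_mul).1 h with h | h
        · rw [(Nat.prime_dvd_prime_iff_eq hb.1 g2).1 h] at hlt
          linarith
        · rw [(Nat.prime_dvd_prime_iff_eq hb.1 g3).1 h] at hlt
          linarith
      · rw [(Nat.prime_dvd_prime_iff_eq hb.1 g4).1 h] at hlt
        linarith
    · exact (Nat.prime_dvd_prime_iff_eq hb.1 hb'.1).1 h2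
  subst hbb
  exact ⟨Nat.eq_of_mul_eq_mul_right hb.1.pos h, rfl⟩

open Classical in
private theorem BQL_sum (N n : ℕ) (z y : ℝ) (F : ℕ → ℝ) (hn : 64 * N ^ 3 ≤ 2 ^ n)
    (hF : ∀ b, 64 * N ^ 3 < b → F b = 0) :
    ∑ b ∈ BN N z y, F b = ∑ w ∈ range n ×ˢ range n, ∑ a ∈ Ioc (2 ^ w.1) (2 * 2 ^ w.1),
      ∑ b ∈ Ioc (2 ^ w.2) (2 * 2 ^ w.2),
        (if K3 y a then (1 : ℝ) else 0) * (if P1 z y b then (1 : ℝ) else 0) * F (a * b) := by
  rw [sum_product]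
  have h1 : ∑ x ∈ range n, ∑ x_1 ∈ range n, ∑ a ∈ Ioc (2 ^ x) (2 * 2 ^ x),
      ∑ b ∈ Ioc (2 ^ x_1) (2 * 2 ^ x_1),
        (if K3 y a then (1 : ℝ) else 0) * (if P1 z y b then (1 : ℝ) else 0) * F (a * b) =
      ∑ a ∈ Ioc 1 (2 ^ n), ∑ b ∈ Ioc 1 (2 ^ n),
        (if K3 y a then (1 : ℝ) else 0) * (if P1 z y b then (1 : ℝ) else 0) * F (a * b) := by
    rw [← BQL_dy (fun a => ∑ b ∈ Ioc 1 (2 ^ n),
        (if K3 y a then (1 : ℝ) else 0) * (if P1 z y b then (1 : ℝ) else 0) * F (a * b)) n]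
    refine sum_congr rfl fun i _ => ?_
    rw [sum_comm]
    refine sum_congr rfl fun a _ => ?_
    rw [← BQL_dy (fun b =>
        (if K3 y a then (1 : ℝ) else 0) * (if P1 z y b then (1 : ℝ) else 0) * F (a * b)) n]
  rw [h1, ← sum_product']
  have h2 : ∑ w ∈ Ioc 1 (2 ^ n) ×ˢ Ioc 1 (2 ^ n),
      (if K3 y w.1 then (1 : ℝ) else 0) * (if P1 z y w.2 then (1 : ℝ) else 0) * F (w.1 * w.2) =
      ∑ w ∈ (Ioc 1 (2 ^ n) ×ˢ Ioc 1 (2 ^ n)).filter
        (fun w => K3 y w.1 ∧ P1 z y w.2 ∧ w.1 * w.2 ≤ 64 * N ^ 3), F (w.1 * w.2) := by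
    rw [sum_filter]
    refine sum_congr rfl fun w _ => ?_
    by_cases hk : K3 y w.1
    · by_cases hp : P1 z y w.2
      · by_cases hle : w.1 * w.2 ≤ 64 * N ^ 3
        · rw [if_pos hk, if_pos hp, if_pos ⟨hk, hp, hle⟩, one_mul, one_mul]
        · have hno : ¬ (K3 y w.1 ∧ P1 z y w.2 ∧ w.1 * w.2 ≤ 64 * N ^ 3) := fun h => hle h.2.2
          rw [if_neg hno, hF _ (not_le.1 hle), mul_zero]
      · have hno : ¬ (K3 y w.1 ∧ P1 z y w.2 ∧ w.1 * w.2 ≤ 64 * N ^ 3) := fun h => hp h.2.1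
        rw [if_neg hno, if_neg hp, mul_zero, zero_mul]
    · have hno : ¬ (K3 y w.1 ∧ P1 z y w.2 ∧ w.1 * w.2 ≤ 64 * N ^ 3) := fun h => hk h.1
      rw [if_neg hno, if_neg hk, zero_mul, zero_mul]
  rw [h2]
  symm
  refine sum_bij (fun w _ => w.1 * w.2) ?_ ?_ ?_ ?_
  · intro w hw
    rw [mem_filter, mem_product, mem_Ioc, mem_Ioc] at hw
    unfold BN
    rw [mem_filter, mem_Ioc]
    obtain ⟨⟨⟨h3, _⟩, ⟨h5, _⟩⟩, hk, hp, hle⟩ := hw
    refine ⟨⟨by positivity, hle⟩, w.2, w.1, hp, hk, mul_comm _ _⟩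
  · intro w hw w' hw' he
    rw [mem_filter] at hw hw'
    obtain ⟨g1, g2⟩ := BQL_uniq z y w.1 w'.1 w.2 w'.2 hw.2.1 hw'.2.1 hw.2.2.1 hw'.2.2.1 he
    exact Prod.ext g1 g2
  · intro b hb
    unfold BN at hb
    rw [mem_filter, mem_Ioc] at hb
    obtain ⟨⟨_, hle⟩, p, k, hp, hk, rfl⟩ := hb
    have hp1 := hp.1.one_lt
    have hk1 : 1 < k := by
      obtain ⟨p₂, p₃, p₄, g2, g3, g4, _, _, _, rfl⟩ := hk
      have := g2.one_lt
      have := g3.one_lt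
      have := g4.one_lt
      calc 1 < p₂ := by assumption
        _ ≤ p₂ * p₃ := Nat.le_mul_of_pos_right _ (by omega)
        _ ≤ p₂ * p₃ * p₄ := Nat.le_mul_of_pos_right _ (by omega)
    refine ⟨(k, p), ?_, mul_comm _ _⟩
    rw [mem_filter, mem_product, mem_Ioc, mem_Ioc]
    have h3 : p ≤ p * k := Nat.le_mul_of_pos_right _ (by omega)
    have h4 : k ≤ p * k := Nat.le_mul_of_pos_left _ (by omega)
    refine ⟨⟨⟨hk1, by omega⟩, ⟨hp1, by omega⟩⟩, hk, hp, ?_⟩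
    show k * p ≤ _
    rw [mul_comm]
    exact hle
  · intro w _
    rfl

private theorem BQL_cc (N : ℕ) (c : ℕ → ℝ) (j : ℕ) (h : cc N c j ≠ 0) :
    N ^ 3 < j ∧ j ≤ 8 * N ^ 3 := by
  unfold cc at h
  obtain ⟨n, hn, hn'⟩ := exists_ne_zero_of_sum_ne_zero h
  have hj : j ∈ Win n := by
    by_contra hj
    exact hn' (if_neg hj)
  unfold Win at hj
  rw [mem_Ioc] at hj
  rw [mem_Ico] at hn
  constructor
  · exact lt_of_le_of_lt (Nat.pow_le_pow_left hn.1 3) hj.1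
  · calc j ≤ (n + 1) ^ 3 := hj.2
      _ ≤ (2 * N) ^ 3 := Nat.pow_le_pow_left (by omega) 3
      _ = 8 * N ^ 3 := by ring

open Classical in
/-- one block -/
private theorem BQL_block (ε' C δ : ℝ) (N : ℕ) (z y : ℝ) (hPZ : PZ N z y) (c : ℕ → ℝ) (r : ℕ → ℕ)
    (R : ℕ) (hC : 0 < C) (hN1 : 1 ≤ N)
    (hε' : 0 < ε') (h42 : (2 : ℝ) ≤ (N : ℝ) ^ (1 / 42 : ℝ))
    (h : ∀ (M K : ℕ) (α β : ℕ → ℝ), K ≤ M → (N : ℝ) ^ (1 / 7 : ℝ) ≤ K → M * K ≤ 8 * N ^ 3 →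
      (∀ a, |α a| ≤ (N : ℝ) ^ (ε' / 16)) → (∀ b, |β b| ≤ (N : ℝ) ^ (ε' / 16)) →
      ∑ a ∈ Ioc M (2 * M), α a ^ 2 ≤ M * Real.log N ^ 0 →
      ∑ b ∈ Ioc K (2 * K), β b ^ 2 ≤ K * Real.log N ^ 0 →
      ∑ m ∈ Mo ((N : ℝ) ^ (1 - 2 * ε')), |∑ a ∈ Ioc M (2 * M), ∑ b ∈ Ioc K (2 * K),
        α a * β b * (cc N c (a * b) * kp R (30 * m) (r m) (a * b))| ≤
      C * (N : ℝ) ^ 3 * Real.log N ^ (0 + 1) / R + (N : ℝ) ^ (3 - δ)) (M K : ℕ) :
    ∑ m ∈ Mo ((N : ℝ) ^ (1 - 2 * ε')), |∑ a ∈ Ioc M (2 * M), ∑ b ∈ Ioc K (2 * K),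
        (if K3 y a then (1 : ℝ) else 0) * (if P1 z y b then (1 : ℝ) else 0) *
          (cc N c (a * b) * kp R (30 * m) (r m) (a * b))| ≤
      C * (N : ℝ) ^ 3 * Real.log N / R + (N : ℝ) ^ (3 - δ) := by
  have hNR : (1 : ℝ) ≤ N := by exact_mod_cast hN1
  have hN0 : (0 : ℝ) < N := by linarith
  have hlog : 0 ≤ Real.log N := Real.log_nonneg hNR
  by_cases hz : ∃ a ∈ Ioc M (2 * M), ∃ b ∈ Ioc K (2 * K), K3 y a ∧ P1 z y b ∧ cc N c (a * b) ≠ 0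
  · obtain ⟨a, ha, b, hb, hk, hp, hcc⟩ := hz
    rw [mem_Ioc] at ha hb
    obtain ⟨g1, g2⟩ := BQL_cc N c _ hcc
    obtain ⟨z1, z2, z3, z4⟩ := hPZ
    have hbK : (b : ℝ) ≤ 2 * K := by exact_mod_cast hb.2
    have haM : (a : ℝ) ≤ 2 * M := by exact_mod_cast ha.2
    have hKb : (K : ℝ) < b := by exact_mod_cast hb.1
    have hby : (b : ℝ) < y := hp.2.2
    have hbz : z ≤ (b : ℝ) := hp.2.1
    have hb0 : (0 : ℝ) < b := by exact_mod_cast hp.1.pos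
    have hK : (N : ℝ) ^ (1 / 7 : ℝ) ≤ K := by
      have h6 : (N : ℝ) ^ (1 / 6 : ℝ) = (N : ℝ) ^ (1 / 7 : ℝ) * (N : ℝ) ^ (1 / 42 : ℝ) := by
        rw [← Real.rpow_add hN0]
        norm_num
      have h7 : 0 ≤ (N : ℝ) ^ (1 / 7 : ℝ) := by positivity
      have h8 : (N : ℝ) ^ (1 / 7 : ℝ) * 2 ≤ (N : ℝ) ^ (1 / 6 : ℝ) := by
        rw [h6]
        gcongr
      linarith
    have hgt : (N : ℝ) ^ 3 < (a : ℝ) * b := by exact_mod_cast g1
    have hKM : (K : ℝ) ≤ M := by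
      by_contra hlt
      rw [not_le] at hlt
      have h9 : (N : ℝ) ^ 3 < 2 * ((N : ℝ) ^ (4 / 5 : ℝ) * (N : ℝ) ^ (4 / 5 : ℝ)) := by
        have h10 : (a : ℝ) * b ≤ 2 * M * y := by
          have : (0 : ℝ) ≤ M := by positivity
          calc (a : ℝ) * b ≤ (2 * M) * b := by gcongr
            _ ≤ (2 * M) * y := by gcongr
        have h11 : (M : ℝ) < (N : ℝ) ^ (4 / 5 : ℝ) := by linarith
        have hy0 : 0 < y := by linarith
        calc (N : ℝ) ^ 3 < (a : ℝ) * b := hgt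
          _ ≤ 2 * M * y := h10
          _ ≤ 2 * (N : ℝ) ^ (4 / 5 : ℝ) * (N : ℝ) ^ (4 / 5 : ℝ) := by gcongr
          _ = 2 * ((N : ℝ) ^ (4 / 5 : ℝ) * (N : ℝ) ^ (4 / 5 : ℝ)) := by ring
      rw [← Real.rpow_add hN0] at h9
      have h12 : 2 * (N : ℝ) ^ ((4 / 5 : ℝ) + 4 / 5) ≤
          (N : ℝ) ^ (1 / 42 : ℝ) * (N : ℝ) ^ ((4 / 5 : ℝ) + 4 / 5) := by gcongr
      rw [← Real.rpow_add hN0] at h12
      have h13 : (N : ℝ) ^ ((1 / 42 : ℝ) + ((4 / 5 : ℝ) + 4 / 5)) ≤ (N : ℝ) ^ (3 : ℝ) :=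
        Real.rpow_le_rpow_of_exponent_le hNR (by norm_num)
      have h14 : (N : ℝ) ^ (3 : ℝ) = (N : ℝ) ^ 3 := by
        rw [← Real.rpow_natCast]
        norm_num
      exact absurd (h9.trans_le (h12.trans (h13.trans h14.le))) (lt_irrefl _)
    have hKM' : K ≤ M := by exact_mod_cast hKM
    have hMK : M * K ≤ 8 * N ^ 3 := by
      refine le_trans ?_ g2
      exact Nat.mul_le_mul ha.1.le hb.1.le
    have hε1 : (1 : ℝ) ≤ (N : ℝ) ^ (ε' / 16) := Real.one_le_rpow hNR (by positivity)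
    have hcard : ∀ K' : ℕ, ∀ P : ℕ → Prop,
        ∑ a ∈ Ioc K' (2 * K'), (if P a then (1 : ℝ) else 0) ^ 2 ≤ K' * Real.log N ^ 0 := by
      intro K' P
      calc ∑ a ∈ Ioc K' (2 * K'), (if P a then (1 : ℝ) else 0) ^ 2
          ≤ ∑ a ∈ Ioc K' (2 * K'), (1 : ℝ) := by
            refine sum_le_sum fun a _ => ?_
            split_ifs <;> norm_num
        _ = (K' : ℝ) * Real.log N ^ 0 := by
            rw [sum_const, Nat.card_Ioc, nsmul_eq_mul, mul_one, pow_zero, mul_one]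
            congr 1
            omega
    have hind : ∀ P : ℕ → Prop, ∀ a, |(if P a then (1 : ℝ) else 0)| ≤ (N : ℝ) ^ (ε' / 16) := by
      intro P a
      split_ifs
      · rw [abs_one]
        exact hε1
      · rw [abs_zero]
        linarith
    have h15 := h M K (fun a => if K3 y a then (1 : ℝ) else 0) (fun b => if P1 z y b then (1 : ℝ) else 0)
      hKM' hK hMK (hind _) (hind _) (hcard _ _) (hcard _ _)
    rw [zero_add, pow_one] at h15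
    exact h15
  · have h0 : ∀ m, ∑ a ∈ Ioc M (2 * M), ∑ b ∈ Ioc K (2 * K),
        (if K3 y a then (1 : ℝ) else 0) * (if P1 z y b then (1 : ℝ) else 0) *
          (cc N c (a * b) * kp R (30 * m) (r m) (a * b)) = 0 := by
      intro m
      refine sum_eq_zero fun a ha => sum_eq_zero fun b hb => ?_
      by_cases hk : K3 y a
      · by_cases hp : P1 z y b
        · by_cases hcc : cc N c (a * b) = 0
          · rw [hcc, zero_mul, mul_zero]
          · exact absurd ⟨a, ha, b, hb, hk, hp, hcc⟩ hz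
        · rw [if_neg hp, mul_zero, zero_mul]
      · rw [if_neg hk, zero_mul, zero_mul]
    rw [sum_eq_zero (fun m _ => by rw [h0 m, abs_zero])]
    positivity

private theorem BQL_logpow (A : ℕ) (δ c : ℝ) (hδ : 0 < δ) (hc : 0 < c) : ∃ x₀ : ℕ, ∀ x : ℕ,
    x₀ ≤ x → Real.log x ^ A ≤ c * (x : ℝ) ^ δ := by
  have h1 := (isLittleO_log_rpow_rpow_atTop (A : ℝ) hδ).bound hc
  obtain ⟨x₀, h⟩ := Filter.eventually_atTop.1 h1
  refine ⟨max ⌈x₀⌉₊ 1, fun x hx => ?_⟩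
  have hx1 : (1 : ℝ) ≤ x := by exact_mod_cast (le_max_right _ _).trans hx
  have hx0 : x₀ ≤ x := (Nat.le_ceil _).trans (by exact_mod_cast (le_max_left _ _).trans hx)
  have h2 := h x hx0
  rw [Real.rpow_natCast, Real.norm_of_nonneg (pow_nonneg (Real.log_nonneg hx1) _),
    Real.norm_of_nonneg (by positivity)] at h2
  exact h2

/-- number of dyadic exponents -/
private theorem BQL_clog (N : ℕ) (hN : 9 ≤ N) :
    (Nat.clog 2 (64 * N ^ 3) : ℝ) ≤ 9 * Real.log N := by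
  have hN0 : (0 : ℝ) < N := by exact_mod_cast (by omega : 0 < N)
  have hL2 : 2 ≤ Real.log N := by
    rw [Real.le_log_iff_exp_le hN0]
    have h3 : Real.exp 2 < 9 := by
      have := Real.exp_one_lt_d9
      have h4 : Real.exp 2 = Real.exp 1 ^ 2 := by rw [← Real.exp_nat_mul]; norm_num
      rw [h4]
      have h5 : 0 < Real.exp 1 := Real.exp_pos 1
      nlinarith
    have : (9 : ℝ) ≤ N := by exact_mod_cast hN
    linarith
  have h1 : 1 < 64 * N ^ 3 := by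
    have : 0 < N ^ 3 := by positivity
    omega
  have h2 := Nat.pow_pred_clog_lt_self (b := 2) (by norm_num) h1
  have h3 : ((2 : ℝ)) ^ (Nat.clog 2 (64 * N ^ 3)).pred < 64 * (N : ℝ) ^ 3 := by exact_mod_cast h2
  have h4 : ((Nat.clog 2 (64 * N ^ 3)).pred : ℝ) * Real.log 2 ≤ 6 * Real.log 2 + 3 * Real.log N := by
    have h5 := Real.log_lt_log (by positivity) h3
    rw [Real.log_pow, Real.log_mul (by norm_num) (by positivity), Real.log_pow,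
      show (64 : ℝ) = 2 ^ 6 by norm_num, Real.log_pow] at h5
    push_cast at h5
    exact h5.le
  have hl2 := Real.log_two_gt_d9
  have h5 : (Nat.clog 2 (64 * N ^ 3) : ℝ) ≤ ((Nat.clog 2 (64 * N ^ 3)).pred : ℝ) + 1 := by
    have : Nat.clog 2 (64 * N ^ 3) ≤ (Nat.clog 2 (64 * N ^ 3)).pred + 1 := by
      rw [Nat.pred_eq_sub_one]
      omega
    exact_mod_cast this
  have h6 : ((Nat.clog 2 (64 * N ^ 3)).pred : ℝ) ≤ 6 + 5 * Real.log N := by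
    by_contra h7
    rw [not_le] at h7
    have h8 : (6 + 5 * Real.log N) * Real.log 2 <
        ((Nat.clog 2 (64 * N ^ 3)).pred : ℝ) * Real.log 2 := by
      apply mul_lt_mul_of_pos_right h7
      linarith
    nlinarith
  linarith

private theorem BQL_fin (A : ℕ) (C δ : ℝ) (N : ℕ) (L : ℝ) (hN0 : (0 : ℝ) < N) (hL0 : 0 < L)
    (hCL : 162 * C ≤ L) (h6 : L ^ (A + 2) ≤ 1 / 162 * (N : ℝ) ^ δ) :
    (9 * L) * (9 * L) * (C * (N : ℝ) ^ 3 * L / L ^ (A + 4) + (N : ℝ) ^ (3 - δ)) ≤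
      (N : ℝ) ^ 3 / L ^ A := by
  have e1 : (9 * L) * (9 * L) * (C * (N : ℝ) ^ 3 * L / L ^ (A + 4) + (N : ℝ) ^ (3 - δ)) =
      81 * C * (N : ℝ) ^ 3 / L ^ (A + 1) + 81 * L ^ 2 * (N : ℝ) ^ (3 - δ) := by
    rw [mul_add]
    congr 1
    · rw [show A + 4 = (A + 1) + 3 by ring, pow_add L (A + 1) 3]
      field_simp
      ring
    · ring
  have e2 : 81 * C * (N : ℝ) ^ 3 / L ^ (A + 1) ≤ 1 / 2 * ((N : ℝ) ^ 3 / L ^ A) := by
    rw [pow_succ L A, ← div_div, div_le_iff₀ hL0]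
    have h5 : 0 ≤ (N : ℝ) ^ 3 / L ^ A := by positivity
    calc 81 * C * (N : ℝ) ^ 3 / L ^ A = (81 * C) * ((N : ℝ) ^ 3 / L ^ A) := by ring
      _ ≤ (1 / 2 * L) * ((N : ℝ) ^ 3 / L ^ A) :=
        mul_le_mul_of_nonneg_right (by linarith) h5
      _ = 1 / 2 * ((N : ℝ) ^ 3 / L ^ A) * L := by ring
  have e3 : 81 * L ^ 2 * (N : ℝ) ^ (3 - δ) ≤ 1 / 2 * ((N : ℝ) ^ 3 / L ^ A) := by
    have h7 : (N : ℝ) ^ 3 = (N : ℝ) ^ (3 - δ) * (N : ℝ) ^ δ := by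
      rw [← Real.rpow_add hN0, sub_add_cancel, ← Real.rpow_natCast]
      norm_num
    rw [← mul_div_assoc, le_div_iff₀ (by positivity)]
    calc 81 * L ^ 2 * (N : ℝ) ^ (3 - δ) * L ^ A = 81 * (N : ℝ) ^ (3 - δ) * L ^ (A + 2) := by
          ring
      _ ≤ 81 * (N : ℝ) ^ (3 - δ) * (1 / 162 * (N : ℝ) ^ δ) := by gcongr
      _ = 1 / 2 * ((N : ℝ) ^ (3 - δ) * (N : ℝ) ^ δ) := by ring
      _ = 1 / 2 * (N : ℝ) ^ 3 := by rw [← h7]
  rw [e1]
  linarith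

open Classical in
theorem BQL (hB : BKB_stmt) : BQL_stmt := by
  intro ε A hε hε1
  set ε' := min (ε / 2) (1 / 10) with hε'd
  have hε' : 0 < ε' := lt_min (by linarith) (by norm_num)
  have hε'10 : ε' ≤ 1 / 10 := min_le_right _ _
  have hε'2 : ε' ≤ ε / 2 := min_le_left _ _
  obtain ⟨C, δ, N₁, hC, hδ, hB1⟩ := hB ε' (1 / 7) 0 hε' hε'10 (by norm_num)
  obtain ⟨N₂, hN₂⟩ := BQL_logpow (A + 2) δ (1 / 162) hδ (by norm_num)
  obtain ⟨N₃, hN₃⟩ := Filter.eventually_atTop.1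
    ((tendsto_rpow_atTop (show (0 : ℝ) < 1 / 42 by norm_num)).comp
      tendsto_natCast_atTop_atTop |>.eventually_ge_atTop (2 : ℝ))
  obtain ⟨N₄, hN₄⟩ := Filter.eventually_atTop.1
    ((Real.tendsto_log_atTop.comp tendsto_natCast_atTop_atTop).eventually_ge_atTop (162 * C))
  refine ⟨A + 4, max (max N₁ N₂) (max (max N₃ N₄) 9), ?_⟩
  intro N hN z y hPZ c hc r hr R hR
  have h1N : N₁ ≤ N := (le_max_left _ _).trans ((le_max_left _ _).trans hN)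
  have h2N : N₂ ≤ N := (le_max_right _ _).trans ((le_max_left _ _).trans hN)
  have h3N : N₃ ≤ N := (le_max_left _ _).trans ((le_max_left _ _).trans ((le_max_right _ _).trans hN))
  have h4N : N₄ ≤ N := (le_max_right _ _).trans ((le_max_left _ _).trans ((le_max_right _ _).trans hN))
  have h9 : 9 ≤ N := (le_max_right _ _).trans ((le_max_right _ _).trans hN)
  have hN0 : (0 : ℝ) < N := by exact_mod_cast (by omega : 0 < N)
  have hNR1 : (1 : ℝ) ≤ N := by exact_mod_cast (by omega : 1 ≤ N)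
  have h42 := hN₃ N h3N
  have hCL := hN₄ N h4N
  simp only [Function.comp] at h42 hCL
  have hclog := BQL_clog N h9
  set n := Nat.clog 2 (64 * N ^ 3) with hn
  have hn2 : 64 * N ^ 3 ≤ 2 ^ n := Nat.le_pow_clog (by norm_num) _
  set L := Real.log N with hL
  have hL0 : 0 < L := by nlinarith
  have hR1 : 1 ≤ R := by
    have h5 : (0 : ℝ) < R := lt_of_lt_of_le (by positivity) hR
    exact_mod_cast h5
  have hR0 : (0 : ℝ) < R := by exact_mod_cast hR1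
  have hsub : Mo ((N : ℝ) ^ (1 - ε)) ⊆ Mo ((N : ℝ) ^ (1 - 2 * ε')) := by
    intro m hm
    unfold Mo at hm ⊢
    rw [mem_filter, mem_Icc] at hm ⊢
    refine ⟨⟨hm.1.1, hm.1.2.trans ?_⟩, hm.2⟩
    apply Nat.floor_le_floor
    apply Real.rpow_le_rpow_of_exponent_le hNR1
    linarith
  have hblock := BQL_block ε' C δ N z y hPZ c r R hC (by omega) hε' h42
    (fun M K α β => hB1 N h1N c hc r (Or.inr hr) R M K α β hR1)
  have k1 : ∑ m ∈ Mo ((N : ℝ) ^ (1 - ε)), |∑ b ∈ BN N z y, cc N c b * kp R (30 * m) (r m) b| ≤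
      ∑ m ∈ Mo ((N : ℝ) ^ (1 - 2 * ε')), |∑ b ∈ BN N z y, cc N c b * kp R (30 * m) (r m) b| :=
    sum_le_sum_of_subset_of_nonneg hsub fun _ _ _ => abs_nonneg _
  have k2 : ∑ m ∈ Mo ((N : ℝ) ^ (1 - 2 * ε')), |∑ b ∈ BN N z y,
        cc N c b * kp R (30 * m) (r m) b| ≤
      ∑ m ∈ Mo ((N : ℝ) ^ (1 - 2 * ε')), ∑ w ∈ range n ×ˢ range n,
        |∑ a ∈ Ioc (2 ^ w.1) (2 * 2 ^ w.1), ∑ b ∈ Ioc (2 ^ w.2) (2 * 2 ^ w.2),
          (if K3 y a then (1 : ℝ) else 0) * (if P1 z y b then (1 : ℝ) else 0) *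
            (cc N c (a * b) * kp R (30 * m) (r m) (a * b))| := by
    refine sum_le_sum fun m _ => ?_
    have hF : ∀ b, 64 * N ^ 3 < b → cc N c b * kp R (30 * m) (r m) b = 0 := by
      intro b hb
      have hcc : cc N c b = 0 := by
        by_contra hne
        have := (BQL_cc N c b hne).2
        omega
      rw [hcc, zero_mul]
    rw [BQL_sum N n z y (fun b => cc N c b * kp R (30 * m) (r m) b) hn2 hF]
    exact abs_sum_le_sum_abs _ _
  refine k1.trans (k2.trans ?_)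
  rw [sum_comm]
  refine (sum_le_sum fun w _ => hblock (2 ^ w.1) (2 ^ w.2)).trans ?_
  rw [sum_const, card_product, card_range, nsmul_eq_mul]
  refine le_trans (b := (9 * L) * (9 * L) * (C * (N : ℝ) ^ 3 * L / L ^ (A + 4) +
    (N : ℝ) ^ (3 - δ))) ?_ ?_
  · rw [Nat.cast_mul]
    gcongr
  · exact BQL_fin A C δ N L hN0 hL0 hCL (hN₂ N h2N)

end Pool.Agent.CH
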