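import Pool.Agent.helper17.CH.SpecQ
import Pool.Agent.helper92.GD.BV4

/-!
# MP_5628fe, row QSC: characters of small conductor, switched sequence
-/

set_option autoImplicit false

namespace Pool.Agent.CH

open Finset ArithmeticFunction
open GD (kp ks)

private theorem QSC_win {N : ℕ} (c : ℕ → ℝ) (hc : ∀ n, |c n| ≤ 1) (j : ℕ) : |cc N c j| ≤ 1 := by
  unfold cc
  by_cases h : ∃ n ∈ Ico N (2 * N), j ∈ Win n
  · obtain ⟨n, hn, hj⟩ := h
    rw [sum_eq_single_of_mem n hn]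
    · rw [if_pos hj]
      exact hc n
    · intro m _ hmn
      rw [if_neg]
      intro hm
      unfold Win at hj hm
      rw [mem_Ioc] at hj hm
      apply hmn
      by_contra _
      rcases lt_or_gt_of_ne hmn with hlt | hlt
      · have h1 : (m + 1) ^ 3 ≤ n ^ 3 := Nat.pow_le_pow_left hlt 3
        omega
      · have h1 : (n + 1) ^ 3 ≤ m ^ 3 := Nat.pow_le_pow_left hlt 3
        omega
  · have : ∑ n ∈ Ico N (2 * N), (if j ∈ Win n then c n else 0) = 0 := by
      apply sum_eq_zero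
      intro n hn
      rw [if_neg (fun hj => h ⟨n, hn, hj⟩)]
    rw [this]
    simp

open Classical in
/-- reduction to the single characters -/
private theorem QSC_red (J : Finset ℕ) (w : ℕ → ℝ) (S : ℝ) (m c R : ℕ) (hm : 0 < m)
    (hc : Nat.Coprime c m) (hR : 1 ≤ R) (ε : ℝ)
    (hε : ∀ χ : DirichletCharacter ℂ m, χ.conductor ≤ R →
      (χ = 1 → ‖∑ n ∈ J, χ n * (w n : ℂ) - (S : ℂ)‖ ≤ ε) ∧
      (χ ≠ 1 → ‖∑ n ∈ J, χ n * (w n : ℂ) - 0‖ ≤ ε)) :
    |∑ n ∈ J, w n * ks R m c n - (1 / (Nat.totient m : ℝ)) * S| ≤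
      (1 / (Nat.totient m : ℝ)) * ((R * R : ℕ) * ε) := by
  have : NeZero m := ⟨hm.ne'⟩
  have hφ : 0 < Nat.totient m := Nat.totient_pos.2 hm
  have hφ0 : (0 : ℝ) < Nat.totient m := by exact_mod_cast hφ
  set F := (univ : Finset (DirichletCharacter ℂ m)).filter fun χ => χ.conductor ≤ R with hF
  have hε0 : 0 ≤ ε := by
    refine (norm_nonneg _).trans ((hε 1 ?_).1 rfl)
    rw [DirichletCharacter.eq_one_iff_conductor_eq_one.1 rfl]
    exact hR
  have h1F : (1 : DirichletCharacter ℂ m) ∈ F := by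
    rw [hF, mem_filter]
    refine ⟨mem_univ _, ?_⟩
    rw [DirichletCharacter.eq_one_iff_conductor_eq_one.1 rfl]
    exact hR
  have key : ∑ n ∈ J, w n * ks R m c n - (1 / (Nat.totient m : ℝ)) * S =
      (1 / (Nat.totient m : ℝ)) * (∑ χ ∈ F, (starRingEnd ℂ) (χ c) *
        (∑ n ∈ J, χ n * (w n : ℂ) - (if χ = 1 then (S : ℂ) else 0))).re := by
    have e1 : ∑ χ ∈ F, (starRingEnd ℂ) (χ c) * (if χ = 1 then (S : ℂ) else 0) = S := by
      rw [sum_eq_single_of_mem 1 h1F (fun χ _ hχ => by rw [if_neg hχ, mul_zero]), if_pos rfl,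
        MulChar.one_apply ((ZMod.isUnit_iff_coprime c m).2 hc), map_one, one_mul]
    have e2 : ∑ n ∈ J, w n * ks R m c n =
        (1 / (Nat.totient m : ℝ)) * (∑ χ ∈ F, (starRingEnd ℂ) (χ c) *
          ∑ n ∈ J, χ n * (w n : ℂ)).re := by
      have e3 : ∑ χ ∈ F, (starRingEnd ℂ) (χ c) * ∑ n ∈ J, χ n * (w n : ℂ) =
          ∑ n ∈ J, ((w n : ℝ) : ℂ) *
            ∑ χ ∈ F, (starRingEnd ℂ) (χ c) * χ n := by
        simp_rw [mul_sum]
        rw [sum_comm]
        refine sum_congr rfl fun n _ => sum_congr rfl fun χ _ => ?_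
        ring
      rw [e3, Complex.re_sum, mul_sum]
      refine sum_congr rfl fun n _ => ?_
      rw [Complex.re_ofReal_mul]
      unfold ks
      ring
    simp_rw [mul_sub]
    rw [sum_sub_distrib, e1, Complex.sub_re, mul_sub, e2, Complex.ofReal_re]
  rw [key, abs_mul, abs_of_nonneg (by positivity : 0 ≤ 1 / (Nat.totient m : ℝ))]
  refine mul_le_mul_of_nonneg_left ?_ (by positivity)
  refine (Complex.abs_re_le_norm _).trans ((norm_sum_le _ _).trans ?_)
  calc ∑ χ ∈ F, ‖(starRingEnd ℂ) (χ c) *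
        (∑ n ∈ J, χ n * (w n : ℂ) - (if χ = 1 then (S : ℂ) else 0))‖
      ≤ ∑ χ ∈ F, ε := by
        apply sum_le_sum
        intro χ hχ
        rw [norm_mul, RCLike.norm_conj]
        have h1 := DirichletCharacter.norm_le_one χ (c : ZMod m)
        have h2 := hε χ (mem_filter.1 hχ).2
        by_cases hχ1 : χ = 1
        · rw [if_pos hχ1]
          exact (mul_le_mul h1 (h2.1 hχ1) (norm_nonneg _) zero_le_one).trans (le_of_eq (one_mul ε))
        · rw [if_neg hχ1]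
          exact (mul_le_mul h1 (h2.2 hχ1) (norm_nonneg _) zero_le_one).trans (le_of_eq (one_mul ε))
    _ = (#F : ℝ) * ε := by rw [sum_const, nsmul_eq_mul]
    _ ≤ ((R * R : ℕ) : ℝ) * ε := by
        apply mul_le_mul_of_nonneg_right _ hε0
        exact_mod_cast GD.BV4_card m R hm

/-- passing to the primitive character -/
private theorem QSC_prim (m : ℕ) (J : Finset ℕ) (w : ℕ → ℝ) (hw : ∀ n, |w n| ≤ 1)
    (χ : DirichletCharacter ℂ m) (S : ℂ) :
    ‖∑ n ∈ J, χ n * (w n : ℂ) - S‖ ≤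
      ‖∑ n ∈ J, χ.primitiveCharacter n * (w n : ℂ) - S‖ +
        (#(J.filter fun n => ¬ Nat.Coprime n m) : ℝ) := by
  have h1 : ∑ n ∈ J, χ n * (w n : ℂ) =
      ∑ n ∈ J, χ.primitiveCharacter n * (w n : ℂ) -
        ∑ n ∈ J.filter (fun n => ¬ Nat.Coprime n m), χ.primitiveCharacter n * (w n : ℂ) := by
    rw [sum_filter, ← sum_sub_distrib]
    refine sum_congr rfl fun n _ => ?_
    by_cases hn : Nat.Coprime n m
    · have h2 := χ.primitiveCharacter_apply_of_isCoprime (a := (n : ℤ))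
        (Nat.isCoprime_iff_coprime.mpr hn)
      push_cast at h2
      rw [if_neg (by simpa using hn), sub_zero, h2]
    · rw [if_pos hn, sub_self, MulChar.map_nonunit _ (fun h => hn
        ((ZMod.isUnit_iff_coprime n m).1 h)), zero_mul]
  rw [h1, sub_right_comm]
  refine (norm_sub_le _ _).trans (add_le_add le_rfl ?_)
  refine (norm_sum_le _ _).trans ?_
  calc ∑ n ∈ J.filter (fun n => ¬ Nat.Coprime n m), ‖χ.primitiveCharacter n * (w n : ℂ)‖
      ≤ ∑ n ∈ J.filter (fun n => ¬ Nat.Coprime n m), (1 : ℝ) := by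
        refine sum_le_sum fun n _ => ?_
        rw [norm_mul, Complex.norm_real, Real.norm_eq_abs]
        have h2 := DirichletCharacter.norm_le_one χ.primitiveCharacter
          (n : ZMod χ.conductor)
        exact mul_le_one₀ h2 (abs_nonneg _) (hw n)
    _ = (#(J.filter fun n => ¬ Nat.Coprime n m) : ℝ) := by
        rw [sum_const, nsmul_eq_mul, mul_one]

/-- the multiples of `p` up to `X` -/
private theorem QSC_mult (X p : ℕ) :
    #((Ioc 0 X).filter fun n => p ∣ n) ≤ X / p := by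
  rw [Nat.Ioc_filter_dvd_card_eq_div]

/-- all prime factors of an element of the switched sequence are at least `z` -/
private theorem QSC_fac (z y : ℝ) (hzy : z ≤ y) (b p : ℕ) (hb : Bs z y b) (hp : p.Prime)
    (hpb : p ∣ b) : z ≤ (p : ℝ) := by
  obtain ⟨p₁, k, ⟨h1, h2, _⟩, ⟨p₂, p₃, p₄, g2, g3, g4, hy, h23, h34, rfl⟩, rfl⟩ := hb
  have h23' : (p₂ : ℝ) ≤ p₃ := by exact_mod_cast h23
  have h34' : (p₃ : ℝ) ≤ p₄ := by exact_mod_cast h34
  rcases (hp.dvd_mul).1 hpb with h | h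
  · rw [(Nat.prime_dvd_prime_iff_eq hp h1).1 h]
    exact h2
  · rcases (hp.dvd_mul).1 h with h | h
    · rcases (hp.dvd_mul).1 h with h | h
      · rw [(Nat.prime_dvd_prime_iff_eq hp g2).1 h]
        linarith
      · rw [(Nat.prime_dvd_prime_iff_eq hp g3).1 h]
        linarith
    · rw [(Nat.prime_dvd_prime_iff_eq hp g4).1 h]
      linarith

open Classical in
/-- at most `24` prime factors `≥ z` -/
private theorem QSC_big (N M : ℕ) (z : ℝ) (hN : 64 ≤ N) (hz : (N : ℝ) ^ (1 / 6 : ℝ) ≤ z)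
    (hM : 0 < M) (hMN : M ≤ 64 * N ^ 3) :
    #(M.primeFactors.filter fun p : ℕ => z ≤ (p : ℝ)) ≤ 24 := by
  set T := M.primeFactors.filter fun p : ℕ => z ≤ (p : ℝ) with hT
  by_contra hlt
  rw [not_le] at hlt
  have hN0 : (0 : ℝ) < N := by exact_mod_cast (by omega : 0 < N)
  have hN1 : (1 : ℝ) < N := by exact_mod_cast (by omega : 1 < N)
  have hw1 : (1 : ℝ) < (N : ℝ) ^ (1 / 6 : ℝ) := Real.one_lt_rpow hN1 (by norm_num)
  have h1 : ((N : ℝ) ^ (1 / 6 : ℝ)) ^ #T ≤ (∏ p ∈ T, (p : ℝ)) := by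
    rw [← prod_const]
    apply prod_le_prod
    · intro p _
      positivity
    · intro p hp
      exact hz.trans (mem_filter.1 hp).2
  have h2 : ∏ p ∈ T, p ≤ M := by
    apply Nat.le_of_dvd hM
    refine (prod_dvd_prod_of_subset T M.primeFactors _ (filter_subset _ _)).trans ?_
    exact Nat.prod_primeFactors_dvd M
  have h3 : (∏ p ∈ T, (p : ℝ)) ≤ M := by
    have h5 : ((∏ p ∈ T, p : ℕ) : ℝ) ≤ (M : ℝ) := Nat.cast_le.2 h2
    rw [Nat.cast_prod] at h5
    exact h5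
  have h4 : (M : ℝ) ≤ (N : ℝ) ^ 4 := by
    have h5 : (M : ℝ) ≤ 64 * (N : ℝ) ^ 3 := by exact_mod_cast hMN
    have h6 : (64 : ℝ) ≤ N := by exact_mod_cast hN
    calc (M : ℝ) ≤ 64 * (N : ℝ) ^ 3 := h5
      _ ≤ N * (N : ℝ) ^ 3 := by gcongr
      _ = (N : ℝ) ^ 4 := by ring
  have h7 : ((N : ℝ) ^ (1 / 6 : ℝ)) ^ 24 = (N : ℝ) ^ 4 := by
    rw [← Real.rpow_natCast, ← Real.rpow_mul hN0.le, ← Real.rpow_natCast]
    norm_num
  have h8 : ((N : ℝ) ^ (1 / 6 : ℝ)) ^ 24 < ((N : ℝ) ^ (1 / 6 : ℝ)) ^ #T :=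
    pow_lt_pow_right₀ hw1 hlt
  linarith

open Classical in
/-- the elements with a common factor -/
private theorem QSC_non (N M : ℕ) (z y : ℝ) (hN : 64 ≤ N) (hz : (N : ℝ) ^ (1 / 6 : ℝ) ≤ z)
    (hzy : z ≤ y) (hM : 0 < M) (hMN : M ≤ 64 * N ^ 3) :
    (#((BN N z y).filter fun n => ¬ Nat.Coprime n M) : ℝ) ≤
      1536 * ((N : ℝ) ^ 3 / (N : ℝ) ^ (1 / 6 : ℝ)) := by
  set T := M.primeFactors.filter fun p : ℕ => z ≤ (p : ℝ) with hT
  have hN0 : (0 : ℝ) < N := by exact_mod_cast (by omega : 0 < N)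
  have hw0 : (0 : ℝ) < (N : ℝ) ^ (1 / 6 : ℝ) := by positivity
  have h1 : (BN N z y).filter (fun n => ¬ Nat.Coprime n M) ⊆
      T.biUnion fun p => (Ioc 0 (64 * N ^ 3)).filter fun n => p ∣ n := by
    intro b hb
    rw [mem_filter] at hb
    obtain ⟨hb1, hb2⟩ := hb
    unfold BN at hb1
    rw [mem_filter] at hb1
    obtain ⟨p, hp, hpb, hpM⟩ := Nat.Prime.not_coprime_iff_dvd.1 hb2
    rw [mem_biUnion]
    refine ⟨p, ?_, ?_⟩
    · rw [hT, mem_filter, Nat.mem_primeFactors]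
      exact ⟨⟨hp, hpM, hM.ne'⟩, QSC_fac z y hzy b p hb1.2 hp hpb⟩
    · rw [mem_filter]
      exact ⟨hb1.1, hpb⟩
  calc (#((BN N z y).filter fun n => ¬ Nat.Coprime n M) : ℝ)
      ≤ (#(T.biUnion fun p => (Ioc 0 (64 * N ^ 3)).filter fun n => p ∣ n) : ℝ) := by
        exact_mod_cast card_le_card h1
    _ ≤ ∑ p ∈ T, (#((Ioc 0 (64 * N ^ 3)).filter fun n => p ∣ n) : ℝ) := by
        exact_mod_cast card_biUnion_le
    _ ≤ ∑ p ∈ T, 64 * ((N : ℝ) ^ 3 / (N : ℝ) ^ (1 / 6 : ℝ)) := by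
        apply sum_le_sum
        intro p hp
        have h2 : (N : ℝ) ^ (1 / 6 : ℝ) ≤ p := hz.trans (mem_filter.1 hp).2
        have h3 : (#((Ioc 0 (64 * N ^ 3)).filter fun n => p ∣ n) : ℝ) ≤
            ((64 * N ^ 3 : ℕ) : ℝ) / (p : ℝ) := by
          refine le_trans ?_ (Nat.cast_div_le (α := ℝ))
          exact_mod_cast QSC_mult (64 * N ^ 3) p
        refine h3.trans ?_
        push_cast
        rw [← mul_div_assoc]
        gcongr
    _ = (#T : ℝ) * (64 * ((N : ℝ) ^ 3 / (N : ℝ) ^ (1 / 6 : ℝ))) := by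
        rw [sum_const, nsmul_eq_mul]
    _ ≤ 24 * (64 * ((N : ℝ) ^ 3 / (N : ℝ) ^ (1 / 6 : ℝ))) := by
        gcongr
        exact_mod_cast QSC_big N M z hN hz hM hMN
    _ = 1536 * ((N : ℝ) ^ 3 / (N : ℝ) ^ (1 / 6 : ℝ)) := by ring

private theorem QSC_logpow (A : ℕ) (c : ℝ) (hc : 0 < c) : ∃ x₀ : ℕ, ∀ x : ℕ, x₀ ≤ x →
    Real.log x ^ A ≤ c * (x : ℝ) ^ (1 / 6 : ℝ) := by
  have h1 := (isLittleO_log_rpow_rpow_atTop (A : ℝ) (show (0 : ℝ) < 1 / 6 by norm_num)).bound hc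
  obtain ⟨x₀, h⟩ := Filter.eventually_atTop.1 h1
  refine ⟨max ⌈x₀⌉₊ 1, fun x hx => ?_⟩
  have hx1 : (1 : ℝ) ≤ x := by exact_mod_cast (le_max_right _ _).trans hx
  have hx0 : x₀ ≤ x := (Nat.le_ceil _).trans (by exact_mod_cast (le_max_left _ _).trans hx)
  have h2 := h x hx0
  rw [Real.rpow_natCast, Real.norm_of_nonneg (pow_nonneg (Real.log_nonneg hx1) _),
    Real.norm_of_nonneg (by positivity)] at h2
  exact h2

theorem QSC (hQN : QN_stmt) : QSC_stmt := by
  intro A B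
  obtain ⟨N₁, hN₁⟩ := hQN (A + 2 * B + 1) B
  obtain ⟨N₂, hN₂⟩ := QSC_logpow (A + 2 * B) (1 / 3072) (by norm_num)
  refine ⟨max N₁ (max N₂ 64), ?_⟩
  intro N hN z y hPZ c hc M a R hM hMN haM hR hRB
  have h1N : N₁ ≤ N := (le_max_left _ _).trans hN
  have h2N : N₂ ≤ N := (le_max_left _ _).trans ((le_max_right _ _).trans hN)
  have h64 : 64 ≤ N := (le_max_right _ _).trans ((le_max_right _ _).trans hN)
  set L := Real.log N with hL
  have hN0 : (0 : ℝ) < N := by exact_mod_cast (by omega : 0 < N)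
  have hNR : (64 : ℝ) ≤ N := by exact_mod_cast h64
  have hL2 : 2 ≤ L := by
    rw [hL, Real.le_log_iff_exp_le hN0]
    have h3 : Real.exp 2 < 9 := by
      have := Real.exp_one_lt_d9
      have h4 : Real.exp 2 = Real.exp 1 ^ 2 := by rw [← Real.exp_nat_mul]; norm_num
      rw [h4]
      have h5 : 0 < Real.exp 1 := Real.exp_pos 1
      nlinarith
    linarith
  have hL0 : 0 < L := by linarith
  have hc1 : ∀ n, |cc N c n| ≤ 1 := fun n => QSC_win c hc n
  have hz := hPZ.1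
  have hzy := hPZ.2.1
  -- bound for each character
  set S : ℝ := ∑ b ∈ BN N z y, cc N c b with hS
  set E : ℝ := (N : ℝ) ^ 3 / L ^ (A + 2 * B) with hE
  have hE0 : 0 ≤ E := by positivity
  have hnon : (#((BN N z y).filter fun n => ¬ Nat.Coprime n M) : ℝ) ≤ 1 / 2 * E := by
    refine (QSC_non N M z y h64 hz hzy hM hMN).trans ?_
    have h4 := hN₂ N h2N
    rw [← hL] at h4
    have hw0 : (0 : ℝ) < (N : ℝ) ^ (1 / 6 : ℝ) := by positivity
    rw [hE, ← mul_div_assoc, ← mul_div_assoc, div_le_div_iff₀ hw0 (by positivity)]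
    have h5 : (0 : ℝ) ≤ (N : ℝ) ^ 3 := by positivity
    calc 1536 * (N : ℝ) ^ 3 * L ^ (A + 2 * B)
        ≤ 1536 * (N : ℝ) ^ 3 * (1 / 3072 * (N : ℝ) ^ (1 / 6 : ℝ)) := by gcongr
      _ = 1 / 2 * (N : ℝ) ^ 3 * (N : ℝ) ^ (1 / 6 : ℝ) := by ring
  have hhalf : (N : ℝ) ^ 3 / L ^ (A + 2 * B + 1) ≤ 1 / 2 * E := by
    rw [hE, pow_succ L (A + 2 * B), ← div_div]
    rw [div_le_iff₀ hL0]
    have h5 : 0 ≤ (N : ℝ) ^ 3 / L ^ (A + 2 * B) := by positivity
    nlinarith
  have hone : ∀ χ : DirichletCharacter ℂ M, χ.conductor ≤ R →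
      (χ = 1 → ‖∑ n ∈ BN N z y, χ n * (cc N c n : ℂ) - (S : ℂ)‖ ≤ E) ∧
      (χ ≠ 1 → ‖∑ n ∈ BN N z y, χ n * (cc N c n : ℂ) - 0‖ ≤ E) := by
    intro χ hχ
    have : NeZero M := ⟨hM.ne'⟩
    have hcond0 : χ.conductor ≠ 0 := DirichletCharacter.conductor_ne_zero χ
    have hcB : (χ.conductor : ℝ) ≤ Real.log N ^ B := by
      refine le_trans ?_ hRB
      exact_mod_cast hχ
    constructor
    · intro hχ1
      refine (QSC_prim M (BN N z y) (cc N c) hc1 χ _).trans ?_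
      have e : ∑ n ∈ BN N z y, χ.primitiveCharacter n * (cc N c n : ℂ) - (S : ℂ) = 0 := by
        have hlev : χ.conductor = 1 := DirichletCharacter.eq_one_iff_conductor_eq_one.1 hχ1
        have hsub : ∀ k : ℕ, k = 1 → ∀ (ψ : DirichletCharacter ℂ k) (n : ℕ), ψ n = 1 := by
          intro k hk ψ n
          subst hk
          rw [DirichletCharacter.level_one ψ]
          apply MulChar.one_apply
          exact isUnit_of_subsingleton _
        rw [hS]
        push_cast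
        rw [← sum_sub_distrib]
        apply sum_eq_zero
        intro j _
        rw [hsub _ hlev χ.primitiveCharacter j]
        ring
      rw [e, norm_zero]
      linarith
    · intro hχ1
      refine (QSC_prim M (BN N z y) (cc N c) hc1 χ _).trans ?_
      have g3 := hN₁ N h1N z y hPZ χ.conductor (Nat.one_le_iff_ne_zero.2 hcond0) hcB
        χ.primitiveCharacter (by
          intro h
          apply hχ1
          have h5 := χ.changeLevel_primitiveCharacter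
          rw [h, map_one] at h5
          exact h5.symm) c hc
      rw [sub_zero]
      linarith
  refine (QSC_red (BN N z y) (cc N c) S M a R hM haM hR E hone).trans ?_
  refine mul_le_mul_of_nonneg_left ?_ (by positivity)
  have h3 : ((R * R : ℕ) : ℝ) ≤ L ^ (2 * B) := by
    push_cast
    calc (R : ℝ) * R ≤ L ^ B * L ^ B := by gcongr
      _ = L ^ (2 * B) := by rw [← pow_add]; congr 1; ring
  calc ((R * R : ℕ) : ℝ) * E ≤ L ^ (2 * B) * ((N : ℝ) ^ 3 / L ^ (A + 2 * B)) := by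
        rw [hE]
        gcongr
    _ = (N : ℝ) ^ 3 / L ^ A := by rw [pow_add]; field_simp

end Pool.Agent.CH
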